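import Pool.Agent.H629.AccBase

/-!
# Prime ideals containing a binomial edge ideal (MP_e66ac9_al, helper280)

For a set `T` of vertices and a labelling `c` of the vertices, `PI T c` is the prime ideal generated
by the variables of the vertices in `T` and the minors of pairs of vertices outside `T` with the
same label. It is defined as the kernel of a homomorphism into a polynomial ring.
-/

set_option autoImplicit false

namespace Pool.Agent.H280.BE

open MvPolynomial H629.AccG

variable {V : Type*} {K : Type*} [Field K] {L : Type*}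

/-- the binomial `x_i y_j - x_j y_i` -/
noncomputable def mi (K : Type*) [Field K] (i j : V) : MvPolynomial (V ⊕ V) K :=
  X (Sum.inl i) * X (Sum.inr j) - X (Sum.inl j) * X (Sum.inr i)

open Classical in
/-- the homomorphism defining `PI T c` -/
noncomputable def phi (K : Type*) [Field K] (T : Set V) (c : V → L) :
    MvPolynomial (V ⊕ V) K →ₐ[K] MvPolynomial (V ⊕ (L ⊕ L)) K :=
  aeval (Sum.elim (fun i => if i ∈ T then 0 else X (Sum.inl i) * X (Sum.inr (Sum.inl (c i))))
    (fun i => if i ∈ T then 0 else X (Sum.inl i) * X (Sum.inr (Sum.inr (c i)))))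

/-- the prime ideal of `T` and the labelling `c` -/
noncomputable def PI (K : Type*) [Field K] (T : Set V) (c : V → L) :
    Ideal (MvPolynomial (V ⊕ V) K) :=
  RingHom.ker (phi K T c).toRingHom

variable {T : Set V} {c : V → L} {i j : V}

instance PI_prime : (PI K T c).IsPrime := RingHom.ker_isPrime _

theorem mem_PI {f : MvPolynomial (V ⊕ V) K} : f ∈ PI K T c ↔ phi K T c f = 0 := Iff.rfl

theorem phi_x (hi : i ∉ T) : phi K T c (X (Sum.inl i)) =
    X (Sum.inl i) * X (Sum.inr (Sum.inl (c i))) := by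
  simp [phi, hi]

theorem phi_y (hi : i ∉ T) : phi K T c (X (Sum.inr i)) =
    X (Sum.inl i) * X (Sum.inr (Sum.inr (c i))) := by
  simp [phi, hi]

theorem x_mem (hi : i ∈ T) : (X (Sum.inl i) : MvPolynomial (V ⊕ V) K) ∈ PI K T c := by
  rw [mem_PI]
  simp [phi, hi]

theorem y_mem (hi : i ∈ T) : (X (Sum.inr i) : MvPolynomial (V ⊕ V) K) ∈ PI K T c := by
  rw [mem_PI]
  simp [phi, hi]

theorem x_mem_iff : (X (Sum.inl i) : MvPolynomial (V ⊕ V) K) ∈ PI K T c ↔ i ∈ T := by
  constructor
  · intro h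
    by_contra hi
    rw [mem_PI, phi_x hi] at h
    exact mul_ne_zero (X_ne_zero _) (X_ne_zero _) h
  · exact x_mem

theorem mi_mem_left (hi : i ∈ T) : mi K i j ∈ PI K T c := by
  unfold mi
  exact Ideal.sub_mem _ (Ideal.mul_mem_right _ _ (x_mem hi)) (Ideal.mul_mem_left _ _ (y_mem hi))

theorem mi_mem_right (hj : j ∈ T) : mi K i j ∈ PI K T c := by
  unfold mi
  exact Ideal.sub_mem _ (Ideal.mul_mem_left _ _ (y_mem hj)) (Ideal.mul_mem_right _ _ (x_mem hj))

theorem mi_mem_same (h : c i = c j) : mi K i j ∈ PI K T c := by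
  by_cases hi : i ∈ T
  · exact mi_mem_left hi
  by_cases hj : j ∈ T
  · exact mi_mem_right hj
  rw [mem_PI]
  unfold mi
  rw [map_sub, map_mul, map_mul, phi_x hi, phi_y hj, phi_x hj, phi_y hi, h]
  ring

theorem mi_mem_iff (hi : i ∉ T) (hj : j ∉ T) : mi K i j ∈ PI K T c ↔ c i = c j := by
  classical
  constructor
  · intro h
    by_contra hne
    rw [mem_PI] at h
    unfold mi at h
    rw [map_sub, map_mul, map_mul, phi_x hi, phi_y hj, phi_x hj, phi_y hi] at h
    have h2 := congrArg (aeval (R := K) (Sum.elim (fun _ : V => (1 : K))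
      (Sum.elim (fun l : L => if l = c i then 1 else 0) (fun l => if l = c j then 1 else 0)))) h
    simp [hne] at h2
  · exact mi_mem_same

/-- a prime ideal with the variables of `T` and the minors of `c` contains `PI T c` -/
theorem PI_le {P : Ideal (MvPolynomial (V ⊕ V) K)} (hP : P.IsPrime)
    (hx : ∀ t ∈ T, (X (Sum.inl t) : MvPolynomial (V ⊕ V) K) ∈ P)
    (hy : ∀ t ∈ T, (X (Sum.inr t) : MvPolynomial (V ⊕ V) K) ∈ P)
    (hm : ∀ i j, i ∉ T → j ∉ T → c i = c j → mi K i j ∈ P) : PI K T c ≤ P := by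
  classical
  let F := FractionRing (MvPolynomial (V ⊕ V) K ⧸ P)
  let ψ : MvPolynomial (V ⊕ V) K →ₐ[K] F :=
    (IsScalarTower.toAlgHom K (MvPolynomial (V ⊕ V) K ⧸ P) F).comp (Ideal.Quotient.mkₐ K P)
  have hψ : ∀ f, ψ f = 0 ↔ f ∈ P := by
    intro f
    have h1 : ψ f = algebraMap (MvPolynomial (V ⊕ V) K ⧸ P) F (Ideal.Quotient.mk P f) := rfl
    rw [h1, map_eq_zero_iff _ (IsFractionRing.injective _ F), Ideal.Quotient.eq_zero_iff_mem]
  let a : V → F := fun i => ψ (X (Sum.inl i))
  let b : V → F := fun i => ψ (X (Sum.inr i))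
  have hab : ∀ i j, i ∉ T → j ∉ T → c i = c j → a i * b j = a j * b i := by
    intro i j hi hj hc
    have h1 := (hψ _).2 (hm i j hi hj hc)
    unfold mi at h1
    rw [map_sub, map_mul, map_mul, sub_eq_zero] at h1
    exact h1
  -- a common direction for each label
  have key : ∀ l : L, ∃ u v : F, ∀ i, i ∉ T → c i = l → ∃ s : F, a i = s * u ∧ b i = s * v := by
    intro l
    by_cases h0 : ∃ i0, i0 ∉ T ∧ c i0 = l ∧ (a i0 ≠ 0 ∨ b i0 ≠ 0)
    · obtain ⟨i0, hi0, hl, hne⟩ := h0
      refine ⟨a i0, b i0, ?_⟩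
      intro i hi hil
      have h1 := hab i i0 hi hi0 (hil.trans hl.symm)
      by_cases ha0 : a i0 = 0
      · have hne' : b i0 ≠ 0 := hne.resolve_left fun h => h ha0
        rw [ha0, zero_mul] at h1
        have h2 : a i = 0 := (mul_eq_zero.1 h1).resolve_right hne'
        refine ⟨b i / b i0, ?_, ?_⟩
        · rw [h2, ha0, mul_zero]
        · exact (div_mul_cancel₀ _ hne').symm
      · refine ⟨a i / a i0, ?_, ?_⟩
        · exact (div_mul_cancel₀ _ ha0).symm
        · rw [div_mul_eq_mul_div, h1, mul_div_cancel_left₀ _ ha0]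
    · push Not at h0
      refine ⟨0, 0, ?_⟩
      intro i hi hil
      obtain ⟨h1, h2⟩ := h0 i hi hil
      exact ⟨0, by rw [h1, mul_zero], by rw [h2, mul_zero]⟩
  choose u v huv using key
  have key2 : ∀ i, ∃ s : F, i ∉ T → a i = s * u (c i) ∧ b i = s * v (c i) := by
    intro i
    by_cases hi : i ∈ T
    · exact ⟨0, fun h => absurd hi h⟩
    · obtain ⟨s, hs⟩ := huv (c i) i hi rfl
      exact ⟨s, fun _ => hs⟩
  choose s hs using key2
  let χ : MvPolynomial (V ⊕ (L ⊕ L)) K →ₐ[K] F := aeval (Sum.elim s (Sum.elim u v))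
  have hcomp : χ.comp (phi K T c) = ψ := by
    refine MvPolynomial.algHom_ext ?_
    rintro (i | i)
    · by_cases hi : i ∈ T
      · have h1 : ψ (X (Sum.inl i)) = 0 := (hψ _).2 (hx i hi)
        rw [h1]
        have h2 : phi K T c (X (Sum.inl i)) = 0 := by simp [phi, hi]
        rw [AlgHom.comp_apply, h2, map_zero]
      · rw [AlgHom.comp_apply, phi_x hi, map_mul]
        have h1 := (hs i hi).1
        simp only [χ, aeval_X, Sum.elim_inl, Sum.elim_inr]
        exact h1.symm
    · by_cases hi : i ∈ T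
      · have h1 : ψ (X (Sum.inr i)) = 0 := (hψ _).2 (hy i hi)
        rw [h1]
        have h2 : phi K T c (X (Sum.inr i)) = 0 := by simp [phi, hi]
        rw [AlgHom.comp_apply, h2, map_zero]
      · rw [AlgHom.comp_apply, phi_y hi, map_mul]
        have h1 := (hs i hi).2
        simp only [χ, aeval_X, Sum.elim_inl, Sum.elim_inr]
        exact h1.symm
  intro f hf
  rw [mem_PI] at hf
  rw [← hψ, ← hcomp, AlgHom.comp_apply, hf, map_zero]

/-- the binomial edge ideal -/
noncomputable def JG (K : Type*) [Field K] (G : SimpleGraph V) :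
    Ideal (MvPolynomial (V ⊕ V) K) :=
  Ideal.span {f | ∃ i j, G.Adj i j ∧ f = mi K i j}

variable {G : SimpleGraph V}

theorem JG_le (h : ∀ i j, i ∉ T → j ∉ T → G.Adj i j → c i = c j) : JG K G ≤ PI K T c := by
  unfold JG
  rw [Ideal.span_le]
  rintro f ⟨i, j, hij, rfl⟩
  by_cases hi : i ∈ T
  · exact mi_mem_left hi
  by_cases hj : j ∈ T
  · exact mi_mem_right hj
  exact mi_mem_same (h i j hi hj hij)

/-- the prime ideal of the components of `G - T` -/
noncomputable def PT (K : Type*) [Field K] (G : SimpleGraph V) (T : Set V) :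
    Ideal (MvPolynomial (V ⊕ V) K) := PI K T (cl G T)

instance PT_prime : (PT K G T).IsPrime := PI_prime

theorem JG_le_PT : JG K G ≤ PT K G T := by
  refine JG_le ?_
  intro i j hi hj hij
  exact (cl_eq hi (cl_step (self_mem G T i) hij hj)).symm

theorem mi_self (i : V) : mi K i i = 0 := by
  unfold mi
  ring

/-- the vertices whose variables lie in `P` -/
def tset (P : Ideal (MvPolynomial (V ⊕ V) K)) : Set V :=
  {i | (X (Sum.inl i) : MvPolynomial (V ⊕ V) K) ∈ P ∧
    (X (Sum.inr i) : MvPolynomial (V ⊕ V) K) ∈ P}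

/-- each prime ideal containing the binomial edge ideal contains one of the ideals `PT` -/
theorem PT_tset_le {P : Ideal (MvPolynomial (V ⊕ V) K)} (hP : P.IsPrime) (hJ : JG K G ≤ P) :
    PT K G (tset P) ≤ P := by
  refine PI_le hP (fun t ht => ht.1) (fun t ht => ht.2) ?_
  intro i j hi hj hc
  have hj' : j ∈ cl G (tset P) i := by
    rw [hc]
    exact self_mem G _ j
  have h1 : cl G (tset P) i ⊆ {j | j ∉ tset P ∧ mi K i j ∈ P} := by
    refine cl_sub ?_ ⟨hi, by rw [mi_self]; exact P.zero_mem⟩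
    rintro u ⟨huT, hu⟩ v huv hv
    refine ⟨hv, ?_⟩
    have h2 : mi K u v ∈ P := hJ (Ideal.subset_span ⟨u, v, huv, rfl⟩)
    have e1 : (X (Sum.inl u) : MvPolynomial (V ⊕ V) K) * mi K i v =
        X (Sum.inl i) * mi K u v + X (Sum.inl v) * mi K i u := by
      unfold mi
      ring
    have e2 : (X (Sum.inr u) : MvPolynomial (V ⊕ V) K) * mi K i v =
        X (Sum.inr i) * mi K u v + X (Sum.inr v) * mi K i u := by
      unfold mi
      ring
    by_contra hcon
    refine huT ⟨?_, ?_⟩
    · have h3 : (X (Sum.inl u) : MvPolynomial (V ⊕ V) K) * mi K i v ∈ P := by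
        rw [e1]
        exact P.add_mem (P.mul_mem_left _ h2) (P.mul_mem_left _ hu)
      exact (hP.mem_or_mem h3).resolve_right hcon
    · have h3 : (X (Sum.inr u) : MvPolynomial (V ⊕ V) K) * mi K i v ∈ P := by
        rw [e2]
        exact P.add_mem (P.mul_mem_left _ h2) (P.mul_mem_left _ hu)
      exact (hP.mem_or_mem h3).resolve_right hcon
  exact (h1 hj').2

end Pool.Agent.H280.BE
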