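import Mathlib

/-!
# Hartshorne's connectedness theorem in an elementary form (MP_e66ac9_al, helper280)
-/

set_option autoImplicit false

namespace Pool.Agent.H280.CM

universe u

/-- A local ring is Cohen-Macaulay: it is Noetherian and has a regular sequence whose length is its
Krull dimension. -/
def IsCohenMacaulayLocalRing (A : Type u) [CommRing A] [IsLocalRing A] : Prop :=
  IsNoetherianRing A ∧ ∃ rs : List A,
    RingTheory.Sequence.IsRegular A rs ∧ (rs.length : WithBot ℕ∞) = ringKrullDim A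

/-- A commutative ring is Cohen-Macaulay: it is Noetherian and all its localizations at prime
ideals are Cohen-Macaulay local rings. -/
def IsCohenMacaulayRing (R : Type u) [CommRing R] : Prop :=
  IsNoetherianRing R ∧ ∀ (p : Ideal R) [p.IsPrime],
    IsCohenMacaulayLocalRing (Localization.AtPrime p)

section loc

variable {A : Type u} [CommRing A]

theorem pow_reg {a : A} (ha : ∀ x, a * x = 0 → x = 0) (k : ℕ) : ∀ x, a ^ k * x = 0 → x = 0 := by
  induction k with
  | zero =>
      intro x hx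
      rwa [pow_zero, one_mul] at hx
  | succ k ih =>
      intro x hx
      rw [pow_succ, mul_assoc] at hx
      exact ha x (ih _ hx)

theorem pow_reg_right {a b : A} (hb : ∀ x y, b * x = a * y → ∃ z, x = a * z) (n : ℕ) :
    ∀ x y, b ^ n * x = a * y → ∃ z, x = a * z := by
  induction n with
  | zero =>
      intro x y hx
      exact ⟨y, by rwa [pow_zero, one_mul] at hx⟩
  | succ n ih =>
      intro x y hx
      rw [pow_succ, mul_assoc] at hx
      obtain ⟨z, hz⟩ := ih _ _ hx
      exact hb x z hz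

theorem pow_reg_both {a b : A} (ha : ∀ x, a * x = 0 → x = 0)
    (hb : ∀ x y, b * x = a * y → ∃ z, x = a * z) (n m : ℕ) :
    ∀ x y, b ^ n * x = a ^ m * y → ∃ z, x = a ^ m * z := by
  induction m with
  | zero =>
      intro x y _
      exact ⟨x, by rw [pow_zero, one_mul]⟩
  | succ m ih =>
      intro x y hx
      obtain ⟨x', hx'⟩ := pow_reg_right hb n x (a ^ m * y) (by rw [hx]; ring)
      have h1 : b ^ n * x' = a ^ m * y := by
        have h2 : a * (b ^ n * x' - a ^ m * y) = 0 := by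
          rw [hx'] at hx
          linear_combination hx
        exact sub_eq_zero.1 (ha _ h2)
      obtain ⟨z, hz⟩ := ih x' y h1
      exact ⟨z, by rw [hx', hz]; ring⟩

variable [IsLocalRing A]

theorem no_regular_pair {I J : Ideal A} (hIJ : I * J = ⊥) (hI : I ≠ ⊥) (hJ : J ≠ ⊥) {a b : A}
    (ha : ∀ x, a * x = 0 → x = 0) (hb : ∀ x y, b * x = a * y → ∃ z, x = a * z)
    {m n : ℕ} (ham : a ^ m ∈ I ⊔ J) (hbn : b ^ n ∈ I ⊔ J) : False := by
  have h0 : ∀ x ∈ I, ∀ y ∈ J, x * y = 0 := by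
    intro x hx y hy
    have := Ideal.mul_mem_mul hx hy
    rwa [hIJ, Ideal.mem_bot] at this
  obtain ⟨i, hi, j, hj, hij⟩ := Submodule.mem_sup.1 ham
  obtain ⟨i', hi', j', hj', hij'⟩ := Submodule.mem_sup.1 hbn
  have h1 : b ^ n * i = a ^ m * i' := by
    rw [← hij, ← hij']
    have e1 := h0 i hi j' hj'
    have e2 := h0 i' hi' j hj
    linear_combination e1 - e2
  obtain ⟨c, hc⟩ := pow_reg_both ha hb n m i i' h1
  have h2 : i * (1 - c) = j * c := by
    rw [← hij] at hc
    linear_combination hc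
  rcases IsLocalRing.isUnit_or_isUnit_one_sub_self c with hu | hu
  · -- `c` is a unit
    obtain ⟨d, hd⟩ := hu.exists_right_inv
    have hjI : j ∈ I := by
      have : j = (i * (1 - c)) * d := by
        rw [h2, mul_assoc, hd, mul_one]
      rw [this]
      exact I.mul_mem_right _ (I.mul_mem_right _ hi)
    have haI : a ^ m ∈ I := by
      rw [← hij]
      exact I.add_mem hi hjI
    apply hJ
    rw [eq_bot_iff]
    intro x hx
    rw [Ideal.mem_bot]
    exact pow_reg ha m x (h0 _ haI x hx)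
  · obtain ⟨d, hd⟩ := hu.exists_right_inv
    have hiJ : i ∈ J := by
      have : i = (j * c) * d := by
        rw [← h2, mul_assoc, hd, mul_one]
      rw [this]
      exact J.mul_mem_right _ (J.mul_mem_right _ hj)
    have haJ : a ^ m ∈ J := by
      rw [← hij]
      exact J.add_mem hiJ hj
    apply hI
    rw [eq_bot_iff]
    intro x hx
    rw [Ideal.mem_bot]
    refine pow_reg ha m x ?_
    rw [mul_comm]
    exact h0 x hx _ haJ

/-- a regular sequence with at least two elements -/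
theorem regular_pair {rs : List A} (h : RingTheory.Sequence.IsRegular A rs) (h2 : 2 ≤ rs.length) :
    ∃ a b : A, a ∈ IsLocalRing.maximalIdeal A ∧ b ∈ IsLocalRing.maximalIdeal A ∧
      (∀ x, a * x = 0 → x = 0) ∧ ∀ x y, b * x = a * y → ∃ z, x = a * z := by
  match rs, h, h2 with
  | [], _, h2 => simp at h2
  | [a], _, h2 => simp at h2
  | a :: b :: rs, h, _ =>
    have hm : ∀ r ∈ a :: b :: rs, r ∈ IsLocalRing.maximalIdeal A := by
      intro r hr
      have h3 : Ideal.ofList (a :: b :: rs) ≠ ⊤ := by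
        intro h4
        apply h.top_ne_smul
        rw [h4]
        simp
      exact IsLocalRing.le_maximalIdeal h3 (Ideal.subset_span hr)
    have h4 := h.toIsWeaklyRegular
    rw [RingTheory.Sequence.isWeaklyRegular_cons_iff] at h4
    obtain ⟨ha, h5⟩ := h4
    rw [RingTheory.Sequence.isWeaklyRegular_cons_iff] at h5
    obtain ⟨hb, -⟩ := h5
    refine ⟨a, b, hm a (by simp), hm b (by simp), ?_, ?_⟩
    · intro x hx
      have : a • x = a • (0 : A) := by
        rw [smul_eq_mul, hx, smul_zero]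
      exact ha this
    · intro x y hxy
      have h6 : b • (Submodule.Quotient.mk x : QuotSMulTop a A) = b • 0 := by
        rw [smul_zero, ← Submodule.Quotient.mk_smul, Submodule.Quotient.mk_eq_zero]
        rw [Submodule.mem_smul_pointwise_iff_exists]
        exact ⟨y, trivial, by rw [smul_eq_mul, smul_eq_mul, hxy]⟩
      have h7 := hb h6
      rw [Submodule.Quotient.mk_eq_zero, Submodule.mem_smul_pointwise_iff_exists] at h7
      obtain ⟨z, -, hz⟩ := h7
      exact ⟨z, by rw [← hz, smul_eq_mul]⟩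

/-- a regular sequence has length at most one if the spectrum is disconnected at the closed
point -/
theorem regular_length_le [IsNoetherianRing A] {I J : Ideal A} (hIJ : I * J ≤ nilradical A)
    (hI : ∃ f ∈ I, ¬ IsNilpotent f) (hJ : ∃ f ∈ J, ¬ IsNilpotent f)
    (hm : IsLocalRing.maximalIdeal A ≤ (I ⊔ J).radical) {rs : List A}
    (h : RingTheory.Sequence.IsRegular A rs) : rs.length ≤ 1 := by
  by_contra hcon
  obtain ⟨a, b, ham, hbm, ha, hb⟩ := regular_pair h (by omega)
  obtain ⟨N, hN⟩ := IsNoetherianRing.isNilpotent_nilradical A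
  have h1 : I ^ N * J ^ N = ⊥ := by
    rw [← mul_pow, eq_bot_iff]
    refine (Ideal.pow_right_mono hIJ N).trans ?_
    rw [hN]
    exact le_rfl
  have hne : ∀ I' : Ideal A, (∃ f ∈ I', ¬ IsNilpotent f) → I' ^ N ≠ ⊥ := by
    rintro I' ⟨f, hf, hf'⟩ h2
    apply hf'
    refine ⟨N, ?_⟩
    have := Ideal.pow_mem_pow hf N
    rwa [h2, Ideal.mem_bot] at this
  have hpow : ∀ x ∈ IsLocalRing.maximalIdeal A, ∃ k, x ^ k ∈ I ^ N ⊔ J ^ N := by
    intro x hx
    obtain ⟨k, hk⟩ := hm hx
    refine ⟨k * (N + N), ?_⟩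
    rw [pow_mul]
    exact Ideal.sup_pow_add_le_pow_sup_pow (Ideal.pow_mem_pow hk (N + N))
  obtain ⟨k, hk⟩ := hpow a ham
  obtain ⟨l, hl⟩ := hpow b hbm
  exact no_regular_pair h1 (hne I hI) (hne J hJ) ha hb hk hl

end loc

section glob

variable {R : Type u} [CommRing R] {J0 Q0 : Ideal R}

/-- the hypotheses which force `Q0` to have height at most one modulo `J0` -/
theorem no_chain (hCM : IsCohenMacaulayRing (R ⧸ J0)) (hQ0 : Q0.IsPrime) (hJQ : J0 ≤ Q0)
    {I J : Ideal R}
    (h1 : ∀ P : Ideal R, P.IsPrime → J0 ≤ P → P ≤ Q0 → I * J ≤ P)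
    (h2 : ∃ P : Ideal R, P.IsPrime ∧ J0 ≤ P ∧ P ≤ Q0 ∧ ¬ I ≤ P)
    (h3 : ∃ P : Ideal R, P.IsPrime ∧ J0 ≤ P ∧ P ≤ Q0 ∧ ¬ J ≤ P)
    (h4 : ∀ P : Ideal R, P.IsPrime → J0 ≤ P → P ≤ Q0 → I ≤ P → J ≤ P → P = Q0)
    {q0 q1 : Ideal R} (hq0 : q0.IsPrime) (hq1 : q1.IsPrime) (hJq : J0 ≤ q0) (h01 : q0 < q1)
    (h1Q : q1 < Q0) : False := by
  let mk := Ideal.Quotient.mk J0
  have hprime : ∀ q : Ideal R, q.IsPrime → J0 ≤ q → (q.map mk).IsPrime := by
    intro q hq hJ
    refine Ideal.map_isPrime_of_surjective Ideal.Quotient.mk_surjective ?_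
    rwa [Ideal.mk_ker]
  have hQ := hprime Q0 hQ0 hJQ
  let A := Localization.AtPrime (Q0.map mk)
  let g : R →+* A := (algebraMap (R ⧸ J0) A).comp mk
  -- primes of `A`
  have hcJ : ∀ 𝔮 : Ideal A, J0 ≤ 𝔮.comap g := by
    intro 𝔮 x hx
    rw [Ideal.mem_comap]
    have : g x = 0 := by
      show algebraMap (R ⧸ J0) A (mk x) = 0
      rw [Ideal.Quotient.eq_zero_iff_mem.2 hx, map_zero]
    rw [this]
    exact 𝔮.zero_mem
  have hcQ : ∀ 𝔮 : Ideal A, 𝔮.IsPrime → 𝔮.comap g ≤ Q0 := by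
    intro 𝔮 h𝔮 x hx
    by_contra hxQ
    have hx' : mk x ∉ Q0.map mk := by
      intro h'
      apply hxQ
      have h5 : x ∈ (Q0.map mk).comap mk := h'
      rwa [Ideal.comap_map_mk hJQ] at h5
    have h6 : IsUnit (g x) := IsLocalization.map_units A (⟨mk x, hx'⟩ : (Q0.map mk).primeCompl)
    exact h𝔮.ne_top (Ideal.eq_top_of_isUnit_mem _ hx h6)
  have hnil : ∀ f : R, (∀ P : Ideal R, P.IsPrime → J0 ≤ P → P ≤ Q0 → f ∈ P) →
      g f ∈ nilradical A := by
    intro f hf
    rw [mem_nilradical, nilpotent_iff_mem_prime]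
    intro 𝔮 h𝔮
    exact hf (𝔮.comap g) (Ideal.comap_isPrime g 𝔮) (hcJ 𝔮) (hcQ 𝔮 h𝔮)
  have hnn : ∀ (P : Ideal R) (f : R), P.IsPrime → J0 ≤ P → P ≤ Q0 → f ∉ P →
      ¬ IsNilpotent (g f) := by
    rintro P f hP hJP hPQ hfP ⟨N, hN⟩
    have h5 : algebraMap (R ⧸ J0) A (mk (f ^ N)) = 0 := by
      have : g (f ^ N) = 0 := by rw [map_pow, hN]
      exact this
    rw [IsLocalization.map_eq_zero_iff (Q0.map mk).primeCompl A] at h5
    obtain ⟨⟨s, hs⟩, hsf⟩ := h5
    obtain ⟨s0, rfl⟩ := Ideal.Quotient.mk_surjective s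
    have h6 : s0 * f ^ N ∈ J0 := by
      rw [← Ideal.Quotient.eq_zero_iff_mem, map_mul]
      exact hsf
    have h7 : s0 ∉ P := by
      intro h8
      exact hs (Ideal.mem_map_of_mem _ (hPQ h8))
    rcases hP.mem_or_mem (hJP h6) with h8 | h8
    · exact h7 h8
    · exact hfP (hP.mem_of_pow_mem N h8)
  obtain ⟨hNoeth, rs, hrs, hlen⟩ := hCM.2 (Q0.map mk)
  have hle : rs.length ≤ 1 := by
    refine regular_length_le (A := A) (I := I.map g) (J := J.map g) ?_ ?_ ?_ ?_ hrs
    · rw [← Ideal.map_mul, Ideal.map_le_iff_le_comap]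
      intro f hf
      exact hnil f fun P hP hJP hPQ => h1 P hP hJP hPQ hf
    · obtain ⟨P, hP, hJP, hPQ, hn⟩ := h2
      obtain ⟨f, hf, hfP⟩ := SetLike.not_le_iff_exists.1 hn
      exact ⟨g f, Ideal.mem_map_of_mem _ hf, hnn P f hP hJP hPQ hfP⟩
    · obtain ⟨P, hP, hJP, hPQ, hn⟩ := h3
      obtain ⟨f, hf, hfP⟩ := SetLike.not_le_iff_exists.1 hn
      exact ⟨g f, Ideal.mem_map_of_mem _ hf, hnn P f hP hJP hPQ hfP⟩
    · rw [Ideal.radical_eq_sInf]
      refine le_sInf ?_
      rintro 𝔮 ⟨h5, h𝔮⟩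
      have h6 : 𝔮.comap g = Q0 := by
        refine h4 _ (Ideal.comap_isPrime g 𝔮) (hcJ 𝔮) (hcQ 𝔮 h𝔮) ?_ ?_
        · rw [← Ideal.map_le_iff_le_comap]
          exact le_sup_left.trans h5
        · rw [← Ideal.map_le_iff_le_comap]
          exact le_sup_right.trans h5
      have h7 : IsLocalRing.maximalIdeal A = Q0.map g := by
        rw [← Localization.AtPrime.map_eq_maximalIdeal, Ideal.map_map]
      rw [h7, Ideal.map_le_iff_le_comap, h6]
  -- heights
  have hq0' := hprime q0 hq0 hJq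
  have hq1' := hprime q1 hq1 (hJq.trans h01.le)
  have hlt : ∀ p q : Ideal R, J0 ≤ p → J0 ≤ q → p < q → p.map mk < q.map mk := by
    intro p q hp hq hpq
    refine lt_of_le_of_ne (Ideal.map_mono hpq.le) ?_
    intro he
    have h5 := congrArg (Ideal.comap mk) he
    rw [Ideal.comap_map_mk hp, Ideal.comap_map_mk hq] at h5
    exact hpq.ne h5
  have h5 := Ideal.height_add_one_le_of_lt_of_isPrime
    (hlt q0 q1 hJq (hJq.trans h01.le) h01)
  have h6 := Ideal.height_add_one_le_of_lt_of_isPrime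
    (hlt q1 Q0 (hJq.trans h01.le) hJQ h1Q)
  have h7 : (2 : ℕ∞) ≤ (Q0.map mk).height := by
    refine le_trans ?_ h6
    refine le_trans ?_ (add_le_add_left h5 1)
    rw [add_assoc, one_add_one_eq_two]
    exact le_add_self
  have h8 := IsLocalization.AtPrime.ringKrullDim_eq_height (Q0.map mk) A
  rw [h8] at hlen
  have h9 : (rs.length : ℕ∞) = (Q0.map mk).height := by exact_mod_cast hlen
  rw [← h9] at h7
  have h10 : 2 ≤ rs.length := by exact_mod_cast h7
  omega

end glob

end Pool.Agent.H280.CM
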