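import Pool.Agent.H629.AccBase

/-!
# Accessible pairs (MP_e66ac9_al, helper280)

A pair `(S, W)` with `W ⊆ S` stands for the graph `G[S]` with a pendant edge attached at each vertex
of `W`. Basic facts on its cut sets.
-/

set_option autoImplicit false

namespace Pool.Agent.H280.TF

open H629.AccG

variable {V : Type*} {G : SimpleGraph V} {S W X Y T T' : Set V} {x y z u v w t a c : V}
  {K D : Set V}

theorem cl_anti (h : T ⊆ T') : cl G T' x ⊆ cl G T x :=
  cl_sub (fun _ hu _ ha hv => cl_step hu ha (fun h' => hv (h h'))) (self_mem G T x)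

theorem cc_le_one_mem [Finite V] (h : cc G T ≤ 1) (hx : x ∉ T) (hy : y ∉ T) : y ∈ cl G T x := by
  have h1 : (comps G T).ncard ≤ 1 := h
  rw [Set.ncard_le_one_iff (Set.toFinite _)] at h1
  have h2 := h1 (cl_mem_comps (G := G) hx) (cl_mem_comps hy)
  rw [h2]
  exact self_mem G T y

theorem one_le_cc [Finite V] (hK : K ∈ comps G T) : 1 ≤ cc G T := by
  have : 0 < cc G T := by
    unfold cc
    rw [Set.ncard_pos (Set.toFinite _)]
    exact ⟨K, hK⟩
  omega

theorem two_le_cc [Finite V] {K1 K2 : Set V} (h1 : K1 ∈ comps G T) (h2 : K2 ∈ comps G T)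
    (h : K1 ≠ K2) : 2 ≤ cc G T := by
  have : 1 < cc G T := by
    unfold cc
    rw [Set.one_lt_ncard_iff (Set.toFinite _)]
    exact ⟨K1, K2, h1, h2, h⟩
  omega

theorem three_le_cc [Finite V] {K1 K2 K3 : Set V} (h1 : K1 ∈ comps G T) (h2 : K2 ∈ comps G T)
    (h3 : K3 ∈ comps G T) (h12 : K1 ≠ K2) (h13 : K1 ≠ K3) (h23 : K2 ≠ K3) : 3 ≤ cc G T := by
  have : 2 < cc G T := by
    unfold cc
    rw [Set.two_lt_ncard_iff (Set.toFinite _)]
    exact ⟨K1, K2, K3, h1, h2, h3, h12, h13, h23⟩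
  omega

theorem cc_le_cc [Finite V] (hT : T ⊆ T') (h : ∀ K ∈ comps G T, ∃ y ∈ K, y ∉ T') :
    cc G T ≤ cc G T' := by
  classical
  rcases (comps G T).eq_empty_or_nonempty with h0 | ⟨K0, hK0⟩
  · unfold cc
    rw [h0, Set.ncard_empty]
    exact Nat.zero_le _
  obtain ⟨y0, -⟩ := comps_nonempty hK0
  have : Nonempty V := ⟨y0⟩
  choose! f hf using h
  unfold cc
  refine Set.ncard_le_ncard_of_injOn (fun K => cl G T' (f K)) ?_ ?_ (Set.toFinite _)
  · intro K hK
    exact cl_mem_comps (hf K hK).2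
  · intro K hK K' hK' he
    have h1 : cl G T' (f K) ⊆ K := by
      have := comps_eq_cl hK (hf K hK).1
      exact (cl_anti hT).trans this.2.symm.subset
    have h2 : cl G T' (f K') ⊆ K' := by
      have := comps_eq_cl hK' (hf K' hK').1
      exact (cl_anti hT).trans this.2.symm.subset
    have h3 : f K ∈ K' := by
      apply h2
      have he' : cl G T' (f K) = cl G T' (f K') := he
      rw [← he']
      exact self_mem G T' _
    exact comps_eq hK hK' (hf K hK).1 h3

/-- a component containing a vertex -/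
theorem exists_comp (hx : x ∉ T) : ∃ K ∈ comps G T, x ∈ K := ⟨_, cl_mem_comps hx, self_mem G T x⟩

/-- with two components each vertex lies in one of them -/
theorem mem_of_cc_two [Finite V] (h : cc G T ≤ 2) (hK : K ∈ comps G T) (hD : D ∈ comps G T)
    (hKD : K ≠ D) (hx : x ∉ T) : x ∈ K ∨ x ∈ D := by
  by_contra hcon
  push Not at hcon
  have h3 := three_le_cc hK hD (cl_mem_comps hx) hKD
    (fun h' => hcon.1 (by rw [h']; exact self_mem G T x))
    (fun h' => hcon.2 (by rw [h']; exact self_mem G T x))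
  omega

theorem union_sdiff_singleton (hx : x ∈ S) : (Sᶜ ∪ X) \ {x} = Sᶜ ∪ (X \ {x}) := by
  ext y
  constructor
  · rintro ⟨h | h, h'⟩
    · exact Or.inl h
    · exact Or.inr ⟨h, h'⟩
  · rintro (h | h)
    · refine ⟨Or.inl h, ?_⟩
      rintro rfl
      exact h hx
    · exact ⟨Or.inr h.1, h.2⟩

theorem notMem_union (hx : x ∈ S) (hx' : x ∉ X) : x ∉ Sᶜ ∪ X := by
  rintro (h | h)
  · exact h hx
  · exact hx' h

theorem mem_of_notMem_union (hx : x ∉ Sᶜ ∪ X) : x ∈ S ∧ x ∉ X := by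
  constructor
  · by_contra h
    exact hx (Or.inl h)
  · exact fun h => hx (Or.inr h)

theorem comp_mem_S (hK : K ∈ comps G (Sᶜ ∪ X)) (hx : x ∈ K) : x ∈ S :=
  (mem_of_notMem_union (comps_notMem hK hx)).1

theorem comp_notMem_X (hK : K ∈ comps G (Sᶜ ∪ X)) (hx : x ∈ K) : x ∉ X :=
  (mem_of_notMem_union (comps_notMem hK hx)).2

theorem comp_step (hK : K ∈ comps G (Sᶜ ∪ X)) (hx : x ∈ K) (ha : G.Adj x y) (hy : y ∈ S)
    (hy' : y ∉ X) : y ∈ K :=
  comps_closed hK hx ha (notMem_union hy hy')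

theorem comp_or (hK : K ∈ comps G (Sᶜ ∪ X)) (hx : x ∈ K) (ha : G.Adj x y) (hy : y ∈ S) :
    y ∈ K ∨ y ∈ X := by
  by_cases h : y ∈ X
  · exact Or.inr h
  · exact Or.inl (comp_step hK hx ha hy h)

/-- the vertices of `W` in `X` keep a neighbour -/
def Good (G : SimpleGraph V) (S W X : Set V) : Prop :=
  ∀ w ∈ X, w ∈ W → ∃ y ∈ S, y ∉ X ∧ G.Adj w y

theorem Good.mono (h : Good G S W X) (hY : Y ⊆ X) : Good G S W Y := by
  intro w hw hwW
  obtain ⟨y, hy, hy', ha⟩ := h w (hY hw) hwW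
  exact ⟨y, hy, fun h' => hy' (hY h'), ha⟩

/-- `X` is a cut set of the pair `(S, W)` -/
structure PCut (G : SimpleGraph V) (S W X : Set V) : Prop where
  sub : X ⊆ S
  good : Good G S W X
  two : ∀ u ∈ X, u ∉ W → cc G (Sᶜ ∪ (X \ {u})) < cc G (Sᶜ ∪ X)

/-- accessible pairs -/
structure PAcc (G : SimpleGraph V) (S W : Set V) : Prop where
  WS : W ⊆ S
  conn : cc G Sᶜ = 1
  unm : ∀ X, PCut G S W X → cc G (Sᶜ ∪ X) = (X \ W).ncard + 1
  acc : ∀ X, PCut G S W X → X.Nonempty → ∃ x ∈ X, PCut G S W (X \ {x})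

theorem cc_erase' [Finite V] (hu : u ∈ S) (hx : u ∈ X) :
    cc G (Sᶜ ∪ (X \ {u})) + deg G (Sᶜ ∪ X) u = cc G (Sᶜ ∪ X) + 1 := by
  have h := cc_erase (G := G) (T := Sᶜ ∪ X) (i := u) (Or.inr hx)
  rwa [union_sdiff_singleton hu] at h

theorem PCut.deg [Finite V] (h : PCut G S W X) (hu : u ∈ X) (hW : u ∉ W) :
    2 ≤ H629.AccG.deg G (Sᶜ ∪ X) u := by
  have h1 := cc_erase' (G := G) (h.sub hu) hu
  have h2 := h.two u hu hW
  omega

theorem PCut.mk' [Finite V] (hs : X ⊆ S) (hg : Good G S W X)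
    (hd : ∀ u ∈ X, u ∉ W → 2 ≤ H629.AccG.deg G (Sᶜ ∪ X) u) : PCut G S W X := by
  refine ⟨hs, hg, ?_⟩
  intro u hu hW
  have h1 := cc_erase' (G := G) (hs hu) hu
  have h2 := hd u hu hW
  omega

theorem two_le_deg [Finite V] {K1 K2 : Set V} (h1 : K1 ∈ comps G T) (h2 : K2 ∈ comps G T)
    (a1 : ∃ y ∈ K1, G.Adj u y) (a2 : ∃ y ∈ K2, G.Adj u y) (n1 : K1 ≠ K2) :
    2 ≤ H629.AccG.deg G T u := by
  have : 1 < H629.AccG.deg G T u := by
    unfold H629.AccG.deg
    rw [Set.one_lt_ncard_iff (Set.toFinite _)]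
    exact ⟨K1, K2, ⟨h1, a1⟩, ⟨h2, a2⟩, n1⟩
  omega

theorem ncard_sdiff_erase [Finite V] (hu : u ∈ X) (hW : u ∉ W) :
    ((X \ {u}) \ W).ncard + 1 = (X \ W).ncard := by
  have h1 : (X \ {u}) \ W = (X \ W) \ {u} := by
    ext y
    constructor
    · rintro ⟨⟨h1, h2⟩, h3⟩
      exact ⟨⟨h1, h3⟩, h2⟩
    · rintro ⟨⟨h1, h3⟩, h2⟩
      exact ⟨⟨h1, h2⟩, h3⟩
  rw [h1]
  exact Set.ncard_sdiff_singleton_add_one ⟨hu, hW⟩

namespace PAcc

variable [Finite V]

theorem bound (h : PAcc G S W) (hs : X ⊆ S) (hg : Good G S W X) :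
    cc G (Sᶜ ∪ X) ≤ (X \ W).ncard + 1 := by
  induction hn : (X \ W).ncard generalizing X with
  | zero =>
      have h0 : X \ W = ∅ := by rwa [Set.ncard_eq_zero] at hn
      have h1 : PCut G S W X := by
        refine ⟨hs, hg, ?_⟩
        intro u hu hW
        have : u ∈ X \ W := ⟨hu, hW⟩
        rw [h0] at this
        exact absurd this (Set.notMem_empty u)
      have h2 := h.unm X h1
      omega
  | succ n ih =>
      by_cases hT : PCut G S W X
      · have := h.unm X hT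
        omega
      · have h3 : ∃ u ∈ X, u ∉ W ∧ cc G (Sᶜ ∪ X) ≤ cc G (Sᶜ ∪ (X \ {u})) := by
          by_contra hcon
          push Not at hcon
          exact hT ⟨hs, hg, hcon⟩
        obtain ⟨u, hu, hW, hle⟩ := h3
        have h4 := ncard_sdiff_erase (W := W) hu hW
        have h5 := ih (X := X \ {u}) (fun y hy => hs hy.1) (hg.mono fun y hy => hy.1) (by omega)
        omega

theorem cut_of_le (h : PAcc G S W) (hs : X ⊆ S) (hg : Good G S W X)
    (hc : (X \ W).ncard + 1 ≤ cc G (Sᶜ ∪ X)) : PCut G S W X := by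
  refine ⟨hs, hg, ?_⟩
  intro u hu hW
  have h4 := ncard_sdiff_erase (W := W) hu hW
  have h5 := h.bound (X := X \ {u}) (fun y hy => hs hy.1) (hg.mono fun y hy => hy.1)
  omega

theorem extend (h : PAcc G S W) (hX : PCut G S W X) (hXY : X ⊆ Y) (hY : Y ⊆ S)
    (hg : Good G S W Y) (hYW : ∀ y ∈ Y, y ∉ X → y ∈ W) : PCut G S W Y := by
  refine h.cut_of_le hY hg ?_
  have h1 : Y \ W = X \ W := by
    ext y
    constructor
    · rintro ⟨h1, h2⟩
      refine ⟨?_, h2⟩
      by_contra h3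
      exact h2 (hYW y h1 h3)
    · rintro ⟨h1, h2⟩
      exact ⟨hXY h1, h2⟩
  rw [h1, ← h.unm X hX]
  refine cc_le_cc (Set.union_subset_union_right _ hXY) ?_
  intro K hK
  obtain ⟨y, hy⟩ := comps_nonempty hK
  by_cases hyY : y ∈ Y
  · have hyX := comp_notMem_X hK hy
    obtain ⟨y', hy', hyY', ha⟩ := hg y hyY (hYW y hyY hyX)
    exact ⟨y', comp_step hK hy ha hy' (fun h' => hyY' (hXY h')), notMem_union hy' hyY'⟩
  · exact ⟨y, hy, notMem_union (comp_mem_S hK hy) hyY⟩

/-- a cut set with a vertex outside `W` has such a vertex which may be removed -/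
theorem F3 (h : PAcc G S W) (hX : PCut G S W X) (hne : (X \ W).Nonempty) :
    ∃ t ∈ X, t ∉ W ∧ PCut G S W (X \ {t}) := by
  induction hn : X.ncard using Nat.strong_induction_on generalizing X with
  | _ n ih =>
    obtain ⟨u, hu, huW⟩ := hne
    obtain ⟨x, hx, hx'⟩ := h.acc X hX ⟨u, hu⟩
    by_cases hxW : x ∈ W
    · have hux : u ≠ x := by
        rintro rfl
        exact huW hxW
      have h1 := Set.ncard_sdiff_singleton_add_one hx
      obtain ⟨t, ht, htW, ht'⟩ := ih (X \ {x}).ncard (by omega) hx' ⟨u, ⟨hu, hux⟩, huW⟩ rfl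
      refine ⟨t, ht.1, htW, ?_⟩
      refine h.extend ht' ?_ (fun y hy => hX.sub hy.1) (hX.good.mono fun y hy => hy.1) ?_
      · rintro y ⟨⟨h1, h2⟩, h3⟩
        exact ⟨h1, h3⟩
      · rintro y ⟨h1, h2⟩ h3
        by_contra h4
        refine h3 ⟨⟨h1, ?_⟩, h2⟩
        intro h5
        rw [Set.mem_singleton_iff] at h5
        rw [h5] at h4
        exact h4 hxW
    · exact ⟨x, hx, hxW, hx'⟩

/-- a cut set with a vertex outside `W` contains an elementary cut set -/
theorem elem (h : PAcc G S W) (hX : PCut G S W X) (hne : (X \ W).Nonempty) :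
    ∃ t ∈ X, t ∉ W ∧ PCut G S W (insert t (X ∩ W)) := by
  induction hn : X.ncard using Nat.strong_induction_on generalizing X with
  | _ n ih =>
    obtain ⟨t, ht, htW, ht'⟩ := h.F3 hX hne
    by_cases hne' : ((X \ {t}) \ W).Nonempty
    · have h1 := Set.ncard_sdiff_singleton_add_one ht
      obtain ⟨s, hs, hsW, hs'⟩ := ih (X \ {t}).ncard (by omega) ht' hne' rfl
      refine ⟨s, hs.1, hsW, ?_⟩
      have h2 : (X \ {t}) ∩ W = X ∩ W := by
        ext y
        constructor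
        · rintro ⟨⟨h1, -⟩, h2⟩
          exact ⟨h1, h2⟩
        · rintro ⟨h1, h2⟩
          refine ⟨⟨h1, ?_⟩, h2⟩
          intro h5
          rw [Set.mem_singleton_iff] at h5
          rw [h5] at h2
          exact htW h2
      rwa [h2] at hs'
    · rw [Set.not_nonempty_iff_eq_empty] at hne'
      refine ⟨t, ht, htW, ?_⟩
      have h2 : insert t (X ∩ W) = X := by
        ext y
        constructor
        · rintro (rfl | h1)
          · exact ht
          · exact h1.1
        · intro hy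
          by_cases hyt : y = t
          · exact Or.inl hyt
          · right
            refine ⟨hy, ?_⟩
            by_contra hyW
            have : y ∈ (X \ {t}) \ W := ⟨⟨hy, hyt⟩, hyW⟩
            rw [hne'] at this
            exact this
      rwa [h2]

theorem reach (h : PAcc G S W) (hx : x ∈ S) (hy : y ∈ S) : y ∈ cl G Sᶜ x :=
  cc_le_one_mem h.conn.le (fun h' => h' hx) (fun h' => h' hy)

omit [Finite V] in
theorem elem_two (h : PAcc G S W) {R : Set V} (hR : R ⊆ W) (hc : c ∉ W)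
    (hX : PCut G S W (insert c R)) : cc G (Sᶜ ∪ insert c R) = 2 := by
  rw [h.unm _ hX]
  have : insert c R \ W = {c} := by
    ext y
    constructor
    · rintro ⟨h1 | h1, h2⟩
      · exact h1
      · exact absurd (hR h1) h2
    · intro h1
      rw [Set.mem_singleton_iff] at h1
      rw [h1]
      exact ⟨Or.inl rfl, hc⟩
  rw [this, Set.ncard_singleton]

theorem elem_adj (h : PAcc G S W) {R : Set V} (hR : R ⊆ W) (hc : c ∉ W)
    (hX : PCut G S W (insert c R)) (hK : K ∈ comps G (Sᶜ ∪ insert c R)) :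
    ∃ y ∈ K, G.Adj c y := by
  have h1 := h.elem_two hR hc hX
  have h2 := hX.deg (u := c) (Or.inl rfl) hc
  have h3 : {K | K ∈ comps G (Sᶜ ∪ insert c R) ∧ ∃ y ∈ K, G.Adj c y} =
      comps G (Sᶜ ∪ insert c R) := by
    refine Set.eq_of_subset_of_ncard_le (fun K hK => hK.1) ?_ (Set.toFinite _)
    exact h1.le.trans h2
  rw [← h3] at hK
  exact hK.2

end PAcc

end Pool.Agent.H280.TF
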