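import Pool.Agent.H280.BEIdeal
import Pool.Agent.H280.CMLocal
import Pool.Agent.H280.TFBase

/-!
# Cohen-Macaulay binomial edge ideals and accessible graphs (MP_e66ac9_al, helper280)

We prove the theorem of Bolognini, Macchia and Strazzanti that a graph whose binomial edge ideal is
Cohen-Macaulay is accessible.
-/

set_option autoImplicit false

namespace Pool.Agent.H280.BE

open MvPolynomial H629.AccG

variable {V : Type*} {K : Type*} [Field K] {G : SimpleGraph V} {T T' : Set V}

/-- the two components at an element of a cut set -/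
theorem exists_two [Finite V] (hT : IsCut G T) {t : V} (ht : t ∈ T) :
    ∃ K1 ∈ comps G T, ∃ K2 ∈ comps G T, K1 ≠ K2 ∧ (∃ y ∈ K1, G.Adj t y) ∧ ∃ y ∈ K2, G.Adj t y := by
  have h1 := cc_erase (G := G) ht
  have h2 := hT t ht
  have h3 : 1 < {K | K ∈ comps G T ∧ ∃ y ∈ K, G.Adj t y}.ncard := by
    have : 1 < deg G T t := by omega
    exact this
  rw [Set.one_lt_ncard_iff (Set.toFinite _)] at h3
  obtain ⟨K1, K2, ⟨h4, h5⟩, ⟨h6, h7⟩, h8⟩ := h3
  exact ⟨K1, h4, K2, h6, h8, h5, h7⟩

theorem cl_same (hT' : T' ⊆ T) {i j : V} (hi : i ∉ T) (h : cl G T i = cl G T j) :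
    cl G T' i = cl G T' j := by
  have h1 : j ∈ cl G T i := by
    rw [h]
    exact self_mem G T j
  exact (cl_eq (fun h' => hi (hT' h')) (TF.cl_anti hT' h1)).symm

/-- all vertices of a component adjacent to `t` are joined to `t` after adding `t` -/
theorem cl_join (hT' : T' ⊆ T) {t : V} (ht' : t ∉ T') {L : Set V} (hL : L ∈ comps G T)
    (ha : ∃ y ∈ L, G.Adj t y) {x : V} (hx : x ∈ L) : cl G T' x = cl G T' t := by
  obtain ⟨y, hy, hty⟩ := ha
  have hyT := comps_notMem hL hy
  have hxT := comps_notMem hL hx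
  have h1 : y ∈ cl G T' t := cl_step (self_mem G T' t) hty (fun h => hyT (hT' h))
  have h2 : cl G T y = cl G T x := by
    rw [← (comps_eq_cl hL hy).2, ← (comps_eq_cl hL hx).2]
  rw [← cl_same hT' hyT h2]
  exact cl_eq ht' h1

theorem PT_top_le (hT' : T' ⊆ T) : PT K G T' ≤ PI K T (fun _ => (∅ : Set V)) :=
  PI_le PI_prime (fun _ ht => x_mem (hT' ht)) (fun _ ht => y_mem (hT' ht))
    (fun _ _ _ _ _ => mi_mem_same rfl)

theorem PT_le_cut [Finite V] (hT : IsCut G T) (hT' : T' ⊂ T) : ¬ PT K G T' ≤ PT K G T := by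
  intro hle
  obtain ⟨t, ht, ht'⟩ := Set.exists_of_ssubset hT'
  obtain ⟨K1, hK1, K2, hK2, hne, ⟨y1, hy1, ha1⟩, y2, hy2, ha2⟩ := exists_two hT ht
  have h1 : mi K y1 y2 ∈ PT K G T' := by
    refine mi_mem_same ?_
    rw [cl_join hT'.subset ht' hK1 ⟨y1, hy1, ha1⟩ hy1,
      cl_join hT'.subset ht' hK2 ⟨y2, hy2, ha2⟩ hy2]
  have h2 := (mi_mem_iff (comps_notMem hK1 hy1) (comps_notMem hK2 hy2)).1 (hle h1)
  rw [← (comps_eq_cl hK1 hy1).2, ← (comps_eq_cl hK2 hy2).2] at h2
  exact hne h2

theorem PT_erase_le [Finite V] {t : V} (ht : t ∈ T) (hd : deg G T t ≤ 1) :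
    PT K G (T \ {t}) ≤ PT K G T := by
  refine PI_le PT_prime (fun _ h => x_mem h.1) (fun _ h => y_mem h.1) ?_
  intro i j hi hj hij
  by_cases hit : i = t
  · rw [hit]
    exact mi_mem_left ht
  by_cases hjt : j = t
  · rw [hjt]
    exact mi_mem_right ht
  have hiT : i ∉ T := fun h => hi ⟨h, hit⟩
  have hjT : j ∉ T := fun h => hj ⟨h, hjt⟩
  refine mi_mem_same ?_
  by_contra hne
  have key : ∀ k l, k ∉ T → l ∉ T → cl G (T \ {t}) k = cl G (T \ {t}) l →
      cl G T k ≠ cl G T l → ∃ y ∈ cl G T k, G.Adj t y := by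
    intro k l hk hl hkl hne'
    by_contra hcon
    apply hne'
    have h1 : cl G T k ∈ comps G (T \ {t}) := by
      rw [comps_erase ht]
      exact Or.inr ⟨cl_mem_comps hk, hcon⟩
    have h2 := (comps_eq_cl h1 (self_mem G T k)).2
    have h3 : l ∈ cl G T k := by
      rw [h2, hkl]
      exact self_mem G _ l
    exact (cl_eq hk h3).symm
  have h1 := key i j hiT hjT hij hne
  have h2 := key j i hjT hiT hij.symm (fun h => hne h.symm)
  have h3 := TF.two_le_deg (cl_mem_comps hiT) (cl_mem_comps hjT) h1 h2 hne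
  omega

/-- the combinatorial consequences of the absence of chains of primes -/
theorem star [Finite V] {Q0 : Ideal (MvPolynomial (V ⊕ V) K)} (hQ0 : Q0.IsPrime)
    (hIQ : PT K G T ≤ Q0)
    (nochain : ∀ q0 q1 : Ideal (MvPolynomial (V ⊕ V) K), q0.IsPrime → q1.IsPrime →
      JG K G ≤ q0 → q0 < q1 → q1 < Q0 → False)
    (hT : IsCut G T) (hT' : T' ⊂ T) (hle : PT K G T' ≤ Q0) {t : V} (ht : t ∈ T) (ht' : t ∉ T') :
    T = insert t T' ∧ deg G T t ≤ 2 := by
  classical
  have hsub := hT'.subset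
  let Pp : Ideal (MvPolynomial (V ⊕ V) K) := PI K T (cl G T')
  have h1 : PT K G T ≤ Pp := by
    refine PI_le PI_prime (fun _ h => x_mem h) (fun _ h => y_mem h) ?_
    intro i j hi _ hij
    exact mi_mem_same (cl_same hsub hi hij)
  have h2 : Pp ≤ Q0 := by
    refine PI_le hQ0 (fun _ h => hIQ (x_mem h)) (fun _ h => hIQ (y_mem h)) ?_
    intro i j _ _ hij
    exact hle (mi_mem_same hij)
  have h3 : PT K G T < Pp := by
    refine lt_of_le_of_ne h1 ?_
    intro he
    obtain ⟨K1, hK1, K2, hK2, hne, ⟨y1, hy1, ha1⟩, y2, hy2, ha2⟩ := exists_two hT ht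
    have h4 : mi K y1 y2 ∈ Pp := by
      refine mi_mem_same ?_
      rw [cl_join hsub ht' hK1 ⟨y1, hy1, ha1⟩ hy1, cl_join hsub ht' hK2 ⟨y2, hy2, ha2⟩ hy2]
    rw [← he] at h4
    have h5 := (mi_mem_iff (comps_notMem hK1 hy1) (comps_notMem hK2 hy2)).1 h4
    rw [← (comps_eq_cl hK1 hy1).2, ← (comps_eq_cl hK2 hy2).2] at h5
    exact hne h5
  have h4 : Pp = Q0 := by
    by_contra hne
    exact nochain _ _ PT_prime PI_prime JG_le_PT h3 (lt_of_le_of_ne h2 hne)
  refine ⟨?_, ?_⟩
  · -- `T = insert t T'`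
    have hT1 : insert t T' ⊆ T := by
      rintro x (hx | hx)
      · rw [hx]
        exact ht
      · exact hsub hx
    let P1 : Ideal (MvPolynomial (V ⊕ V) K) := PI K (insert t T') (cl G T')
    have h5 : PT K G T' ≤ P1 :=
      PI_le PI_prime (fun _ h => x_mem (Or.inr h)) (fun _ h => y_mem (Or.inr h))
        (fun _ _ _ _ h => mi_mem_same h)
    have h6 : PT K G T' < P1 := by
      refine lt_of_le_of_ne h5 ?_
      intro he
      have h7 : (X (Sum.inl t) : MvPolynomial (V ⊕ V) K) ∈ P1 := x_mem (Or.inl rfl)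
      rw [← he] at h7
      exact ht' (x_mem_iff.1 h7)
    have h7 : P1 ≤ Pp :=
      PI_le PI_prime (fun _ h => x_mem (hT1 h)) (fun _ h => y_mem (hT1 h))
        (fun _ _ _ _ h => mi_mem_same h)
    refine Set.Subset.antisymm ?_ hT1
    intro s hs
    by_contra hs'
    have h8 : P1 < Pp := by
      refine lt_of_le_of_ne h7 ?_
      intro he
      have h9 : (X (Sum.inl s) : MvPolynomial (V ⊕ V) K) ∈ Pp := x_mem hs
      rw [← he] at h9
      exact hs' (x_mem_iff.1 h9)
    rw [h4] at h8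
    exact nochain _ _ PT_prime PI_prime JG_le_PT h6 h8
  · by_contra hcon
    have h5 : 2 < {L | L ∈ comps G T ∧ ∃ y ∈ L, G.Adj t y}.ncard := by
      have : 2 < deg G T t := by omega
      exact this
    rw [Set.two_lt_ncard_iff (Set.toFinite _)] at h5
    obtain ⟨K1, K2, K3, ⟨hK1, a1⟩, ⟨hK2, a2⟩, ⟨hK3, a3⟩, n12, n13, n23⟩ := h5
    let κ : V → Set V := fun i => if i ∈ K2 then K1 else cl G T i
    let P2 : Ideal (MvPolynomial (V ⊕ V) K) := PI K T κ
    obtain ⟨k1, hk1⟩ := comps_nonempty hK1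
    obtain ⟨k2, hk2⟩ := comps_nonempty hK2
    obtain ⟨k3, hk3⟩ := comps_nonempty hK3
    have hk12 : k1 ∉ K2 := fun h => n12 (comps_eq hK1 hK2 hk1 h)
    have hk32 : k3 ∉ K2 := fun h => n23 (comps_eq hK2 hK3 h hk3)
    have e1 : κ k1 = K1 := by
      simp only [κ, hk12, if_false]
      exact (comps_eq_cl hK1 hk1).2.symm
    have e2 : κ k2 = K1 := by
      simp only [κ, hk2, if_true]
    have e3 : κ k3 = K3 := by
      simp only [κ, hk32, if_false]
      exact (comps_eq_cl hK3 hk3).2.symm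
    have h6 : PT K G T ≤ P2 := by
      refine PI_le PI_prime (fun _ h => x_mem h) (fun _ h => y_mem h) ?_
      intro i j hi hj hij
      refine mi_mem_same ?_
      have h7 : i ∈ K2 ↔ j ∈ K2 := by
        constructor
        · intro h
          have := (comps_eq_cl hK2 h).2
          rw [this, hij]
          exact self_mem G T j
        · intro h
          have := (comps_eq_cl hK2 h).2
          rw [this, ← hij]
          exact self_mem G T i
      by_cases h8 : i ∈ K2
      · simp only [κ, h8, h7.1 h8, if_true]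
      · have h9 : j ∉ K2 := fun h => h8 (h7.2 h)
        simp only [κ, h8, h9, if_false]
        exact hij
    have h7 : PT K G T < P2 := by
      refine lt_of_le_of_ne h6 ?_
      intro he
      have h8 : mi K k1 k2 ∈ P2 := mi_mem_same (e1.trans e2.symm)
      rw [← he] at h8
      have h9 := (mi_mem_iff (comps_notMem hK1 hk1) (comps_notMem hK2 hk2)).1 h8
      rw [← (comps_eq_cl hK1 hk1).2, ← (comps_eq_cl hK2 hk2).2] at h9
      exact n12 h9
    have hjoin : ∀ i, κ i = K1 → i ∉ T → cl G T' i = cl G T' t := by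
      intro i hi hiT
      by_cases h8 : i ∈ K2
      · exact cl_join hsub ht' hK2 a2 h8
      · simp only [κ, h8, if_false] at hi
        refine cl_join hsub ht' hK1 a1 ?_
        rw [← hi]
        exact self_mem G T i
    have h8 : P2 ≤ Pp := by
      refine PI_le PI_prime (fun _ h => x_mem h) (fun _ h => y_mem h) ?_
      intro i j hi hj hij
      refine mi_mem_same ?_
      by_cases h9 : κ i = K1
      · rw [hjoin i h9 hi, hjoin j (hij.symm.trans h9) hj]
      · have h10 : i ∉ K2 := by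
          intro h
          apply h9
          simp only [κ, h, if_true]
        have h11 : j ∉ K2 := by
          intro h
          apply h9
          rw [hij]
          simp only [κ, h, if_true]
        simp only [κ, h10, h11, if_false] at hij
        exact cl_same hsub hi hij
    have h9 : P2 < Pp := by
      refine lt_of_le_of_ne h8 ?_
      intro he
      have h10 : mi K k1 k3 ∈ Pp := by
        refine mi_mem_same ?_
        rw [cl_join hsub ht' hK1 a1 hk1, cl_join hsub ht' hK3 a3 hk3]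
      rw [← he] at h10
      have h11 := (mi_mem_iff (comps_notMem hK1 hk1) (comps_notMem hK3 hk3)).1 h10
      rw [e1, e3] at h11
      exact n13 h11
    rw [h4] at h9
    exact nochain _ _ PT_prime PI_prime JG_le_PT h7 h9

/-- removing an element of a cut set -/
theorem step [Finite V] (hCM : CM.IsCohenMacaulayRing (MvPolynomial (V ⊕ V) K ⧸ JG K G))
    (hT : IsCut G T) (hne : T.Nonempty) :
    ∃ t ∈ T, IsCut G (T \ {t}) ∧ cc G T = cc G (T \ {t}) + 1 := by
  classical
  let B : Finset (Set V) := (Set.toFinite {T' : Set V | T' ⊂ T}).toFinset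
  have hB : ∀ T', T' ∈ B ↔ T' ⊂ T := fun T' => Set.Finite.mem_toFinset _
  let J : Ideal (MvPolynomial (V ⊕ V) K) := B.inf (PT K G)
  have hemp : (∅ : Set V) ⊂ T := Set.empty_ssubset.2 hne
  have htop : PT K G T ⊔ J ≤ PI K T (fun _ => (∅ : Set V)) := by
    refine sup_le (PT_top_le (subset_refl T)) ?_
    exact (Finset.inf_le ((hB ∅).2 hemp)).trans (PT_top_le hemp.subset)
  obtain ⟨Q0, hQ0, hQ0le⟩ := Ideal.exists_minimalPrimes_le htop
  have hQ0p : Q0.IsPrime := hQ0.1.1
  have hIQ : PT K G T ≤ Q0 := le_sup_left.trans hQ0.1.2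
  have hJQ : J ≤ Q0 := le_sup_right.trans hQ0.1.2
  have h1 : ∀ P : Ideal (MvPolynomial (V ⊕ V) K), P.IsPrime → JG K G ≤ P → P ≤ Q0 →
      PT K G T * J ≤ P := by
    intro P hP hJP hPQ
    have h5 : tset P ⊆ T := by
      intro t ht
      exact x_mem_iff.1 (hQ0le (hPQ ht.1))
    have h6 := PT_tset_le hP hJP
    by_cases h7 : tset P = T
    · rw [h7] at h6
      exact Ideal.mul_le_left.trans h6
    · have h8 : tset P ∈ B := (hB _).2 (lt_of_le_of_ne h5 h7)
      exact Ideal.mul_le_right.trans ((Finset.inf_le h8).trans h6)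
  obtain ⟨T', hT'B, hT'Q⟩ := (hQ0p.inf_le').1 hJQ
  have hT' : T' ⊂ T := (hB T').1 hT'B
  obtain ⟨t, ht, ht'⟩ := Set.exists_of_ssubset hT'
  have h2 : ∃ P : Ideal (MvPolynomial (V ⊕ V) K), P.IsPrime ∧ JG K G ≤ P ∧ P ≤ Q0 ∧
      ¬ PT K G T ≤ P := by
    refine ⟨PT K G T', PT_prime, JG_le_PT, hT'Q, ?_⟩
    intro hle
    exact ht' (x_mem_iff.1 (hle (x_mem ht)))
  have h3 : ∃ P : Ideal (MvPolynomial (V ⊕ V) K), P.IsPrime ∧ JG K G ≤ P ∧ P ≤ Q0 ∧
      ¬ J ≤ P := by
    refine ⟨PT K G T, PT_prime, JG_le_PT, hIQ, ?_⟩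
    intro hle
    obtain ⟨T2, hT2B, hT2⟩ := (Ideal.IsPrime.inf_le' (PT_prime (K := K) (G := G) (T := T))).1 hle
    exact PT_le_cut hT ((hB T2).1 hT2B) hT2
  have h4 : ∀ P : Ideal (MvPolynomial (V ⊕ V) K), P.IsPrime → JG K G ≤ P → P ≤ Q0 →
      PT K G T ≤ P → J ≤ P → P = Q0 := by
    intro P hP _ hPQ hIP hJP
    exact le_antisymm hPQ (hQ0.2 ⟨hP, sup_le hIP hJP⟩ hPQ)
  have nochain : ∀ q0 q1 : Ideal (MvPolynomial (V ⊕ V) K), q0.IsPrime → q1.IsPrime →
      JG K G ≤ q0 → q0 < q1 → q1 < Q0 → False := by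
    intro q0 q1 hq0 hq1 hJq h01 h1Q
    exact CM.no_chain hCM hQ0p (JG_le_PT.trans hIQ) h1 h2 h3 h4 hq0 hq1 hJq h01 h1Q
  obtain ⟨hTe, hdeg⟩ := star hQ0p hIQ nochain hT hT' hT'Q ht ht'
  have hTe' : T \ {t} = T' := by
    rw [hTe]
    ext x
    constructor
    · rintro ⟨hx | hx, hxt⟩
      · exact absurd hx hxt
      · exact hx
    · intro hx
      refine ⟨Or.inr hx, ?_⟩
      intro hxt
      rw [Set.mem_singleton_iff] at hxt
      rw [hxt] at hx
      exact ht' hx
  refine ⟨t, ht, ?_, ?_⟩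
  · rw [hTe']
    intro s hs
    by_contra hcon
    have h5 := cc_erase (G := G) hs
    have h6 : deg G T' s ≤ 1 := by omega
    have h7 : PT K G (T' \ {s}) ≤ Q0 := (PT_erase_le hs h6).trans hT'Q
    have h8 : T' \ {s} ⊂ T := by
      refine ⟨fun x hx => hT'.subset hx.1, fun h => ?_⟩
      exact ht' (h ht).1
    obtain ⟨h9, -⟩ := star hQ0p hIQ nochain hT h8 h7 ht (fun h => ht' h.1)
    have h10 : s ∈ T := hT'.subset hs
    rw [h9] at h10
    rcases h10 with h10 | h10
    · exact ht' (h10 ▸ hs)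
    · exact h10.2 rfl
  · have h5 := cc_erase (G := G) ht
    have h6 := hT t ht
    omega

/-- **Theorem** (Bolognini, Macchia, Strazzanti). If the binomial edge ideal of a finite graph is
Cohen-Macaulay, then the graph is accessible. -/
theorem acc_of_cm [Finite V]
    (hCM : CM.IsCohenMacaulayRing (MvPolynomial (V ⊕ V) K ⧸ JG K G)) : Acc G where
  unm := by
    intro T hT
    induction hn : T.ncard generalizing T with
    | zero =>
        have : T = ∅ := by rwa [Set.ncard_eq_zero] at hn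
        rw [this]
        omega
    | succ n ih =>
        have hne : T.Nonempty := by
          rw [← Set.ncard_pos (Set.toFinite _)]
          omega
        obtain ⟨t, ht, hcut, hcc⟩ := step hCM hT hne
        have h1 := Set.ncard_sdiff_singleton_add_one ht
        have h2 := ih _ hcut (by omega)
        omega
  acc := by
    intro T hT hne
    obtain ⟨t, ht, hcut, -⟩ := step hCM hT hne
    exact ⟨t, ht, hcut⟩

end Pool.Agent.H280.BE
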