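import Pool.Agent.H280.TFGlue

/-!
# Accessible triangle-free graphs are bipartite
-/

set_option autoImplicit false
set_option linter.unusedSectionVars false

namespace Pool.Agent.H280.TF

open H629.AccG

variable {V : Type*} {G : SimpleGraph V} {S W X Y R T T' P H H' : Set V}
  {x y z u v w t a c p q : V} {K D : Set V}

theorem comp_stay (hK : K ∈ comps G ∅) (hx : x ∈ K) (ha : G.Adj x y) : y ∈ K :=
  comps_closed hK hx ha (Set.notMem_empty y)

theorem comp_stay_cl (hK : K ∈ comps G ∅) (hx : x ∈ K) : cl G X x ⊆ K :=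
  cl_sub (fun _ hu _ ha _ => comp_stay hK hu ha) hx

theorem comp_out (hK : K ∈ comps G ∅) (hx : x ∉ K) : ∀ y ∈ cl G X x, y ∉ K := by
  have h1 : cl G X x ⊆ {y | y ∉ K} := by
    refine cl_sub ?_ hx
    intro u hu v ha _ hv
    exact hu (comp_stay hK hv ha.symm)
  exact fun y hy => h1 hy

/-- components of `G - X` for a subset `X` of a component `K` -/
theorem comps_of_sub (hK : K ∈ comps G ∅) (hX : X ⊆ K) :
    comps G X = comps G (Kᶜ ∪ X) ∪ (comps G ∅ \ {K}) := by
  ext L
  constructor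
  · intro hL
    obtain ⟨x, hx⟩ := comps_nonempty hL
    have hxL := (comps_eq_cl hL hx).2
    by_cases hxK : x ∈ K
    · left
      have hLK : L ⊆ K := by
        rw [hxL]
        exact comp_stay_cl hK hxK
      refine comps_transfer hL ?_ ?_
      · intro y hy
        exact notMem_union (hLK hy) (comps_notMem hL hy)
      · intro u hu v ha hv
        exact Or.inr (comps_bd hL hu ha hv)
    · right
      have hLK : ∀ y ∈ L, y ∉ K := by
        rw [hxL]
        exact comp_out hK hxK
      refine ⟨comps_transfer hL (fun y _ => Set.notMem_empty y) ?_, ?_⟩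
      · intro u hu v ha hv
        have h1 := hX (comps_bd hL hu ha hv)
        exact absurd (comp_stay hK h1 ha.symm) (hLK u hu)
      · rintro rfl
        exact hxK hx
  · rintro (hL | ⟨hL, hLK⟩)
    · have hLK : ∀ y ∈ L, y ∈ K := fun y hy => comp_mem_S hL hy
      refine comps_transfer hL ?_ ?_
      · intro y hy
        exact comp_notMem_X hL hy
      · intro u hu v ha hv
        rcases comps_bd hL hu ha hv with h1 | h1
        · exact absurd (comp_stay hK (hLK u hu) ha) h1
        · exact h1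
    · refine comps_transfer hL ?_ ?_
      · intro y hy hyX
        exact hLK (comps_eq hL hK hy (hX hyX))
      · intro u hu v ha hv
        exact absurd (comps_closed hL hu ha (Set.notMem_empty v)) hv

variable [Finite V]

theorem cc_of_sub (hK : K ∈ comps G ∅) (hX : X ⊆ K) :
    cc G X + 1 = cc G (Kᶜ ∪ X) + cc G ∅ := by
  have h1 : Disjoint (comps G (Kᶜ ∪ X)) (comps G ∅ \ {K}) := by
    rw [Set.disjoint_left]
    rintro L hL ⟨hL', hLK⟩
    obtain ⟨y, hy⟩ := comps_nonempty hL
    exact hLK (comps_eq hL' hK hy (comp_mem_S hL hy))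
  have h2 : (comps G ∅ \ {K}).ncard + 1 = (comps G ∅).ncard :=
    Set.ncard_sdiff_singleton_add_one hK
  have h3 : cc G X = (comps G (Kᶜ ∪ X)).ncard + (comps G ∅ \ {K}).ncard := by
    unfold cc
    rw [comps_of_sub hK hX]
    exact Set.ncard_union_eq h1
  have h4 : cc G (Kᶜ ∪ X) = (comps G (Kᶜ ∪ X)).ncard := rfl
  have h5 : cc G ∅ = (comps G ∅).ncard := rfl
  omega

/-- the components of an accessible graph are accessible -/
theorem acc_comp (h : Acc G) (hK : K ∈ comps G ∅) : PAcc G K ∅ := by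
  have hup : ∀ X, PCut G K ∅ X → IsCut G X := by
    intro X hX i hi
    have h1 := hX.two i hi (Set.notMem_empty i)
    have h2 := cc_of_sub hK hX.sub
    have h3 := cc_of_sub hK (X := X \ {i}) (fun y hy => hX.sub hy.1)
    omega
  have hdown : ∀ X, X ⊆ K → IsCut G X → PCut G K ∅ X := by
    intro X hXK hX
    refine ⟨hXK, fun w _ hw => absurd hw (Set.notMem_empty w), ?_⟩
    intro i hi _
    have h1 := hX i hi
    have h2 := cc_of_sub hK hXK
    have h3 := cc_of_sub hK (X := X \ {i}) (fun y hy => hXK hy.1)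
    omega
  refine ⟨Set.empty_subset K, ?_, ?_, ?_⟩
  · have h1 := cc_of_sub hK (Set.empty_subset K)
    rw [Set.union_empty] at h1
    omega
  · intro X hX
    have h1 := h.unm X (hup X hX)
    have h2 := cc_of_sub hK hX.sub
    rw [Set.sdiff_empty]
    omega
  · intro X hX hne
    obtain ⟨x, hx, hx'⟩ := h.acc X (hup X hX) hne
    exact ⟨x, hx, hdown _ (fun y hy => hX.sub hy.1) hx'⟩

/-- **Theorem.** An accessible triangle-free graph is bipartite. -/
theorem bip_of_acc (h : Acc G) (tf : ∀ x y z, G.Adj x y → G.Adj y z → ¬ G.Adj x z) :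
    ∃ A : Set V, ∀ x y, G.Adj x y → (x ∈ A ↔ y ∉ A) := by
  have key : ∀ K ∈ comps G ∅, ∃ A : Set V, ∀ x ∈ K, ∀ y ∈ K, G.Adj x y → (x ∈ A ↔ y ∉ A) := by
    intro K hK
    by_cases h2 : 2 ≤ K.ncard
    · exact (pair_main tf _ K ∅ rfl h2 (acc_comp h hK)).2
    · refine ⟨∅, ?_⟩
      intro x hx y hy hxy
      exfalso
      have h3 : K.ncard ≤ 1 := by omega
      rw [Set.ncard_le_one_iff (Set.toFinite _)] at h3
      exact hxy.ne (h3 hx hy)
  choose! f hf using key
  refine ⟨{x | x ∈ f (cl G ∅ x)}, ?_⟩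
  intro x y hxy
  have hx : x ∉ (∅ : Set V) := Set.notMem_empty x
  have hy : y ∈ cl G ∅ x := cl_step (self_mem G ∅ x) hxy (Set.notMem_empty y)
  have h1 : cl G ∅ y = cl G ∅ x := cl_eq hx hy
  show x ∈ f (cl G ∅ x) ↔ ¬ y ∈ f (cl G ∅ y)
  rw [h1]
  exact hf _ (cl_mem_comps hx) x (self_mem G ∅ x) y hy hxy

/-- a component with at least two vertices of an accessible triangle-free graph has exactly two
vertices of degree one -/
theorem leaves_of_acc (h : Acc G) (tf : ∀ x y z, G.Adj x y → G.Adj y z → ¬ G.Adj x z)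
    (hK : K ∈ comps G ∅) (h2 : 2 ≤ K.ncard) :
    {x | x ∈ K ∧ {y | G.Adj x y}.ncard = 1}.ncard = 2 := by
  rw [← (pair_main tf _ K ∅ rfl h2 (acc_comp h hK)).1]
  congr 1
  ext x
  constructor
  · rintro ⟨hx, hx'⟩
    refine ⟨hx, Or.inr ?_⟩
    rw [← hx']
    congr 1
    ext y
    exact ⟨fun h' => h'.2, fun h' => ⟨comp_stay hK hx h', h'⟩⟩
  · rintro ⟨hx, h' | hx'⟩
    · exact absurd h' (Set.notMem_empty x)
    · refine ⟨hx, ?_⟩
      rw [← hx']
      congr 1
      ext y
      exact ⟨fun h' => ⟨comp_stay hK hx h', h'⟩, fun h' => h'.2⟩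

end Pool.Agent.H280.TF
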