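import Pool.Agent.H280.TFBase

/-!
# Accessible pairs without a separating vertex (MP_e66ac9_al, helper280)
-/

set_option autoImplicit false

namespace Pool.Agent.H280.TF

open H629.AccG

variable {V : Type*} {G : SimpleGraph V} {S W X Y R T T' : Set V} {x y z u v w t a c p q : V}
  {K D : Set V}

/-- the neighbours of `v` in `S` -/
def Nb (G : SimpleGraph V) (S : Set V) (v : V) : Set V := {y | y ∈ S ∧ G.Adj v y}

/-- accessible triangle-free pairs without a separating vertex -/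
structure Ctx (G : SimpleGraph V) (S W : Set V) : Prop where
  acc : PAcc G S W
  tf : ∀ x y z, G.Adj x y → G.Adj y z → ¬ G.Adj x z
  ns : ∀ v ∈ S, cc G (Sᶜ ∪ {v}) ≤ 1
  three : 3 ≤ S.ncard

/-- `t` is the only neighbour of `a` outside `W` -/
structure Pend (G : SimpleGraph V) (S W : Set V) (a t : V) : Prop where
  ha : a ∈ S
  ht : t ∈ S
  tW : t ∉ W
  adj : G.Adj a t
  uniq : ∀ y ∈ S, y ∉ W → G.Adj a y → y = t

namespace Ctx

variable [Finite V]

omit [Finite V] in
theorem exists_third (h : Ctx G S W) (a b : V) : ∃ x ∈ S, x ≠ a ∧ x ≠ b := by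
  have h1 : ({a, b} : Set V).ncard < S.ncard := by
    have := Set.ncard_insert_le a {b}
    rw [Set.ncard_singleton] at this
    have := h.three
    omega
  obtain ⟨x, hx, hx'⟩ := Set.exists_mem_notMem_of_ncard_lt_ncard h1
  refine ⟨x, hx, ?_, ?_⟩
  · rintro rfl
    exact hx' (Or.inl rfl)
  · rintro rfl
    exact hx' (Or.inr rfl)

theorem exists_nb (h : Ctx G S W) (hv : v ∈ S) : ∃ y ∈ S, G.Adj v y := by
  by_contra hcon
  push Not at hcon
  obtain ⟨x, hx, hxv, -⟩ := h.exists_third v v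
  have h1 : cl G Sᶜ v ⊆ {v} := by
    refine cl_sub ?_ rfl
    intro u hu y ha hy
    rw [Set.mem_singleton_iff] at hu
    subst hu
    exact absurd ha (hcon y (by simpa using hy))
  exact hxv (h1 (h.acc.reach hv hx))

theorem no_leaf (h : Ctx G S W) (hv : v ∈ S) (hy : y ∈ S) (ha : G.Adj v y) :
    ∃ z ∈ S, z ≠ v ∧ G.Adj y z := by
  by_contra hcon
  push Not at hcon
  obtain ⟨x, hx, hxv, hxy⟩ := h.exists_third v y
  have h1 : cl G (Sᶜ ∪ {v}) y ⊆ {y} := by
    refine cl_sub ?_ rfl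
    intro u hu z ha' hz
    rw [Set.mem_singleton_iff] at hu
    subst hu
    have h2 := mem_of_notMem_union hz
    exact absurd ha' (hcon z h2.1 h2.2)
  exact hxy (h1 (cc_le_one_mem (h.ns v hv) (notMem_union hy ha.ne.symm) (notMem_union hx hxv)))

omit [Finite V] in
theorem cl_self (hv : v ∈ S) : cl G (Sᶜ ∪ Nb G S v) v = {v} := by
  refine Set.Subset.antisymm (cl_sub ?_ rfl) ?_
  · intro u hu y ha hy
    rw [Set.mem_singleton_iff] at hu
    subst hu
    have h2 := mem_of_notMem_union hy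
    exact absurd ⟨h2.1, ha⟩ h2.2
  · rintro _ rfl
    exact self_mem G _ _

theorem nb_two (h : Ctx G S W) (hv : v ∈ S) (hy : y ∈ Nb G S v) :
    2 ≤ H629.AccG.deg G (Sᶜ ∪ Nb G S v) y := by
  obtain ⟨z, hz, hzv, hyz⟩ := h.no_leaf hv hy.1 hy.2
  have hv' : v ∉ Nb G S v := fun h' => h'.2.ne rfl
  have hz' : z ∉ Nb G S v := fun h' => h.tf v y z hy.2 hyz h'.2
  refine two_le_deg (cl_mem_comps (notMem_union hv hv')) (cl_mem_comps (notMem_union hz hz'))
    ⟨v, self_mem G _ v, hy.2.symm⟩ ⟨z, self_mem G _ z, hyz⟩ ?_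
  rw [cl_self hv]
  intro he
  have : z ∈ ({v} : Set V) := by
    rw [he]
    exact self_mem G _ z
  exact hzv this

theorem nb_cut (h : Ctx G S W) (hv : v ∈ S) : PCut G S W (Nb G S v) := by
  refine PCut.mk' (fun y hy => hy.1) ?_ ?_
  · intro w hw _
    exact ⟨v, hv, fun h' => h'.2.ne rfl, hw.2.symm⟩
  · intro u hu _
    exact h.nb_two hv hu

theorem u_pos (h : Ctx G S W) (hv : v ∈ S) : ∃ y ∈ S, y ∉ W ∧ G.Adj v y := by
  by_contra hcon
  push Not at hcon
  obtain ⟨y, hy, ha⟩ := h.exists_nb hv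
  have h1 := h.nb_two hv ⟨hy, ha⟩
  have h2 : H629.AccG.deg G (Sᶜ ∪ Nb G S v) y ≤ cc G (Sᶜ ∪ Nb G S v) :=
    Set.ncard_le_ncard (fun K hK => hK.1) (Set.toFinite _)
  have h3 := h.acc.unm _ (h.nb_cut hv)
  have h4 : Nb G S v \ W = ∅ := by
    ext y
    constructor
    · rintro ⟨h1, h2⟩
      exact absurd h1.2 (hcon y h1.1 h2)
    · intro h
      exact absurd h (Set.notMem_empty y)
  rw [h4, Set.ncard_empty] at h3
  omega

theorem elem_at (h : Ctx G S W) (hv : v ∈ S) :
    ∃ c ∈ S, c ∉ W ∧ G.Adj v c ∧ PCut G S W (insert c (Nb G W v)) := by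
  obtain ⟨y, hy, hyW, ha⟩ := h.u_pos hv
  obtain ⟨c, hc, hcW, hc'⟩ := h.acc.elem (h.nb_cut hv) ⟨y, ⟨hy, ha⟩, hyW⟩
  refine ⟨c, hc.1, hcW, hc.2, ?_⟩
  have : Nb G S v ∩ W = Nb G W v := by
    ext x
    constructor
    · rintro ⟨h1, h2⟩
      exact ⟨h2, h1.2⟩
    · rintro ⟨h1, h2⟩
      exact ⟨⟨h.acc.WS h1, h2⟩, h1⟩
  rwa [this] at hc'

theorem w_pos (h : Ctx G S W) (hv : v ∈ S) : ∃ w ∈ W, G.Adj v w := by
  by_contra hcon
  push Not at hcon
  obtain ⟨c, hc, hcW, ha, hc'⟩ := h.elem_at hv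
  have h1 := h.acc.elem_two (R := Nb G W v) (fun x hx => hx.1) hcW hc'
  have h2 : insert c (Nb G W v) = {c} := by
    ext y
    constructor
    · rintro (h1 | h1)
      · exact h1
      · exact absurd h1.2 (hcon y h1.1)
    · exact fun h1 => Or.inl h1
  rw [h2] at h1
  have := h.ns c hc
  omega

theorem W_good (h : Ctx G S W) : Good G S W W := by
  intro w hw _
  exact h.u_pos (h.acc.WS hw)

/-- the vertices outside `W` form a connected graph -/
theorem reachU (h : Ctx G S W) (hx : x ∈ S) (hxW : x ∉ W) (hy : y ∈ S) (hyW : y ∉ W) :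
    y ∈ cl G (Sᶜ ∪ W) x := by
  have h1 := h.acc.bound h.acc.WS h.W_good
  have h2 : W \ W = ∅ := by simp
  rw [h2, Set.ncard_empty] at h1
  exact cc_le_one_mem h1 (notMem_union hx hxW) (notMem_union hy hyW)

/-- induction along the vertices outside `W` -/
theorem closedU (h : Ctx G S W) {A : Set V} (hA : ∀ x ∈ A, x ∈ S → x ∉ W →
    ∀ y ∈ S, y ∉ W → G.Adj x y → y ∈ A)
    (hx : x ∈ S) (hxW : x ∉ W) (hxA : x ∈ A) (hy : y ∈ S) (hyW : y ∉ W) : y ∈ A := by
  have h1 : cl G (Sᶜ ∪ W) x ⊆ {y | y ∈ A ∧ y ∈ S ∧ y ∉ W} := by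
    refine cl_sub ?_ ⟨hxA, hx, hxW⟩
    rintro u ⟨hu, huS, huW⟩ v ha hv
    have h2 := mem_of_notMem_union hv
    exact ⟨hA u hu huS huW v h2.1 h2.2 ha, h2⟩
  exact (h1 (h.reachU hx hxW hy hyW)).1

section sigma

/-- the set used for a vertex `t` with pendants -/
def Xt (G : SimpleGraph V) (S W : Set V) (t : V) : Set V :=
  insert t {w | w ∈ W ∧ ¬ Pend G S W w t}

theorem Xt_good (h : Ctx G S W) (ht : t ∉ W) : Good G S W (Xt G S W t) := by
  intro w hw hwW
  have hwt : w ≠ t := by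
    rintro rfl
    exact ht hwW
  have hw' : ¬ Pend G S W w t := by
    rcases hw with h1 | h1
    · exact absurd h1 hwt
    · exact h1.2
  obtain ⟨y0, hy0, hy0W, ha0⟩ := h.u_pos (h.acc.WS hwW)
  have h2 : ∃ y ∈ S, y ∉ W ∧ G.Adj w y ∧ y ≠ t := by
    by_contra hcon
    push Not at hcon
    have h3 := hcon y0 hy0 hy0W ha0
    subst h3
    exact hw' ⟨h.acc.WS hwW, hy0, hy0W, ha0, hcon⟩
  obtain ⟨y, hy, hyW, ha, hyt⟩ := h2
  refine ⟨y, hy, ?_, ha⟩
  rintro (h3 | h3)
  · exact hyt h3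
  · exact hyW h3.1

theorem Xt_cc (h : Ctx G S W) (ht : t ∉ W) (htS : t ∈ S) : cc G (Sᶜ ∪ Xt G S W t) ≤ 2 := by
  have h1 := h.acc.bound (X := Xt G S W t) ?_ (h.Xt_good ht)
  · have h2 : Xt G S W t \ W = {t} := by
      ext y
      constructor
      · rintro ⟨h1 | h1, h2⟩
        · exact h1
        · exact absurd h1.1 h2
      · intro h1
        rw [Set.mem_singleton_iff] at h1
        subst h1
        exact ⟨Or.inl rfl, ht⟩
    rw [h2, Set.ncard_singleton] at h1
    exact h1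
  · rintro y (h1 | h1)
    · rw [h1]
      exact htS
    · exact h.acc.WS h1.1

theorem Xt_comp (h : Ctx G S W) (hp : Pend G S W p t) (hpW : p ∈ W) :
    {p} ∈ comps G (Sᶜ ∪ Xt G S W t) := by
  have hpX : p ∉ Xt G S W t := by
    rintro (h1 | h1)
    · exact hp.tW (by rw [← h1]; exact hpW)
    · exact h1.2 hp
  refine ⟨p, notMem_union hp.ha hpX, ?_⟩
  refine Set.Subset.antisymm ?_ (cl_sub ?_ rfl)
  · rintro _ rfl
    exact self_mem G _ _
  · intro u hu y ha hy
    rw [Set.mem_singleton_iff] at hu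
    subst hu
    have h2 := mem_of_notMem_union hy
    by_cases hyW : y ∈ W
    · have h3 : Pend G S W y t := by
        by_contra h3
        exact h2.2 (Or.inr ⟨hyW, h3⟩)
      exact absurd hp.adj (h.tf _ _ _ ha h3.adj)
    · exact absurd (Or.inl (hp.uniq y h2.1 hyW ha)) h2.2

theorem pend_unique (h : Ctx G S W) (hp : Pend G S W p t) (hpW : p ∈ W) (hq : Pend G S W q t)
    (hqW : q ∈ W) : p = q := by
  by_contra hpq
  obtain ⟨y, hy, hyW, ha⟩ := h.u_pos hp.ht
  have hyX : y ∉ Xt G S W t := by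
    rintro (h1 | h1)
    · exact ha.ne h1.symm
    · exact hyW h1.1
  have h3 := three_le_cc (h.Xt_comp hp hpW) (h.Xt_comp hq hqW)
    (cl_mem_comps (G := G) (notMem_union hy hyX)) ?_ ?_ ?_
  · have := h.Xt_cc hp.tW hp.ht
    omega
  · intro he
    have : p ∈ ({q} : Set V) := by
      rw [← he]
      rfl
    exact hpq this
  · intro he
    have : y ∈ ({p} : Set V) := by
      rw [he]
      exact self_mem G _ y
    rw [Set.mem_singleton_iff] at this
    exact hyW (this ▸ hpW)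
  · intro he
    have : y ∈ ({q} : Set V) := by
      rw [he]
      exact self_mem G _ y
    rw [Set.mem_singleton_iff] at this
    exact hyW (this ▸ hqW)

/-- the vertices outside `W` and different from `t` form a connected graph if `t` has a pendant -/
theorem pend_conn (h : Ctx G S W) (hp : Pend G S W p t) (hpW : p ∈ W) (hx : x ∈ S) (hxW : x ∉ W)
    (hxt : x ≠ t) (hy : y ∈ S) (hyW : y ∉ W) (hyt : y ≠ t) : y ∈ cl G (Sᶜ ∪ insert t W) x := by
  by_contra hcon
  have hn : ∀ z ∈ S, z ∉ W → z ≠ t → z ∉ Sᶜ ∪ insert t W := by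
    intro z hz hzW hzt
    refine notMem_union hz ?_
    rintro (h1 | h1)
    · exact hzt h1
    · exact hzW h1
  have key : ∀ z ∈ S, z ∉ W → z ≠ t → cl G (Sᶜ ∪ insert t W) z ∈ comps G (Sᶜ ∪ Xt G S W t) := by
    intro z hz hzW hzt
    refine comps_transfer (cl_mem_comps (hn z hz hzW hzt)) ?_ ?_
    · intro y hy
      have h1 := cl_notMem (hn z hz hzW hzt) hy
      have h2 := mem_of_notMem_union h1
      refine notMem_union h2.1 ?_
      rintro (h3 | h3)
      · exact h2.2 (Or.inl h3)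
      · exact h2.2 (Or.inr h3.1)
    · intro u hu v ha hv
      have h1 := mem_of_notMem_union (cl_notMem (hn z hz hzW hzt) hu)
      have h2 := comps_bd (cl_mem_comps (hn z hz hzW hzt)) hu ha hv
      rcases h2 with h2 | h2 | h2
      · exact Or.inl h2
      · exact Or.inr (Or.inl h2)
      · by_cases h3 : Pend G S W v t
        · have h4 := h3.uniq u h1.1 (fun h' => h1.2 (Or.inr h')) ha.symm
          exact absurd (Or.inl h4) h1.2
        · exact Or.inr (Or.inr ⟨h2, h3⟩)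
  have h3 := three_le_cc (h.Xt_comp hp hpW) (key x hx hxW hxt) (key y hy hyW hyt) ?_ ?_ ?_
  · have := h.Xt_cc hp.tW hp.ht
    omega
  · intro he
    have : x ∈ ({p} : Set V) := by
      rw [he]
      exact self_mem G _ x
    rw [Set.mem_singleton_iff] at this
    exact hxW (this ▸ hpW)
  · intro he
    have : y ∈ ({p} : Set V) := by
      rw [he]
      exact self_mem G _ y
    rw [Set.mem_singleton_iff] at this
    exact hyW (this ▸ hpW)
  · intro he
    apply hcon
    rw [he]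
    exact self_mem G _ y

end sigma

/-- types of elementary cut sets -/
theorem elem_type (h : Ctx G S W) (hR : R ⊆ W) (hc : c ∈ S) (hcW : c ∉ W)
    (hX : PCut G S W (insert c R)) (hK : K ∈ comps G (Sᶜ ∪ insert c R)) :
    (∃ u ∈ K, u ∉ W) ∨
      ∃ p ∈ K, p ∈ W ∧ Pend G S W p c ∧ ∀ q ∈ S, G.Adj p q → q ∈ insert c R := by
  by_cases hu : ∃ u ∈ K, u ∉ W
  · exact Or.inl hu
  · right
    push Not at hu
    obtain ⟨p, hp, hcp⟩ := h.acc.elem_adj hR hcW hX hK
    have hnb : ∀ p' ∈ K, ∀ y ∈ S, y ∉ W → G.Adj p' y → y = c := by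
      intro p' hp' y hy hyW ha
      rcases comp_or hK hp' ha hy with h1 | h1 | h1
      · exact absurd (hu y h1) hyW
      · exact h1
      · exact absurd (hR h1) hyW
    refine ⟨p, hp, hu p hp, ⟨comp_mem_S hK hp, hc, hcW, hcp.symm, hnb p hp⟩, ?_⟩
    intro q hq hpq
    rcases comp_or hK hp hpq hq with h1 | h1
    · exfalso
      obtain ⟨y, hy, hyW, ha⟩ := h.u_pos hq
      have := hnb q h1 y hy hyW ha
      subst this
      exact h.tf _ _ _ hcp hpq ha.symm
    · exact h1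

/-- the separating vertex is adjacent to a vertex outside `W` of each component with one -/
theorem adjU (h : Ctx G S W) (hR : R ⊆ W) (hc : c ∈ S) (hcW : c ∉ W)
    (hK : K ∈ comps G (Sᶜ ∪ insert c R)) (hu : u ∈ K) (huW : u ∉ W) :
    ∃ v ∈ K, v ∉ W ∧ G.Adj c v := by
  by_contra hcon
  push Not at hcon
  have h1 : c ∈ K := by
    refine h.closedU (A := K) ?_ (comp_mem_S hK hu) huW hu hc hcW
    intro x hx hxS hxW y hy hyW ha
    rcases comp_or hK hx ha hy with h1 | h1 | h1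
    · exact h1
    · exact absurd (h1 ▸ ha.symm) (hcon x hx hxW)
    · exact absurd (hR h1) hyW
  exact comp_notMem_X hK h1 (Or.inl rfl)

/-- no separation by a vertex with a pendant -/
theorem pend_type (h : Ctx G S W) (hp : Pend G S W p t) (hpW : p ∈ W) (hR : R ⊆ W)
    (hX : PCut G S W (insert t R)) : ∃ K ∈ comps G (Sᶜ ∪ insert t R), ∀ u ∈ K, u ∈ W := by
  by_contra hcon
  push Not at hcon
  have h1 := h.acc.elem_two hR hp.tW hX
  have h2 : 1 < (comps G (Sᶜ ∪ insert t R)).ncard := by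
    have : (comps G (Sᶜ ∪ insert t R)).ncard = 2 := h1
    omega
  rw [Set.one_lt_ncard_iff (Set.toFinite _)] at h2
  obtain ⟨K1, K2, hK1, hK2, hne⟩ := h2
  obtain ⟨u1, hu1, hu1W⟩ := hcon K1 hK1
  obtain ⟨u2, hu2, hu2W⟩ := hcon K2 hK2
  have e1 : u1 ≠ t := by
    rintro rfl
    exact comp_notMem_X hK1 hu1 (Or.inl rfl)
  have e2 : u2 ≠ t := by
    rintro rfl
    exact comp_notMem_X hK2 hu2 (Or.inl rfl)
  have h3 := h.pend_conn hp hpW (comp_mem_S hK1 hu1) hu1W e1 (comp_mem_S hK2 hu2) hu2W e2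
  have h4 : u2 ∈ cl G (Sᶜ ∪ insert t R) u1 :=
    cl_anti (Set.union_subset_union_right _ (Set.insert_subset_insert hR)) h3
  have h5 := (comps_eq_cl hK1 hu1).2
  exact hne (comps_eq hK1 hK2 (by rw [h5]; exact h4) hu2)

end Ctx

/-- nested components -/
theorem nested [Finite V] (h2 : cc G (Sᶜ ∪ insert c R) ≤ 2)
    (hK : K ∈ comps G (Sᶜ ∪ insert c R)) (hD : D ∈ comps G (Sᶜ ∪ insert c R)) (hKD : K ≠ D)
    {r c' : V} (hr : r ∈ K) (hc' : c' ∈ D) (hc : c ∈ S) (hcR : c ∉ R)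
    (hck : ∃ k ∈ K, G.Adj c k)
    {D' : Set V} (hD' : D' ∈ comps G (Sᶜ ∪ insert c' R)) (hrD' : r ∉ D') :
    D'.ncard < D.ncard := by
  have hc'K : c' ∉ K := fun h' => hKD (comps_eq hK hD h' hc')
  have hKT : ∀ y ∈ K, y ∉ Sᶜ ∪ insert c' R := by
    intro y hy
    refine notMem_union (comp_mem_S hK hy) ?_
    rintro (h1 | h1)
    · rw [h1] at hy
      exact hc'K hy
    · exact comp_notMem_X hK hy (Or.inr h1)
  have hKcl : K ⊆ cl G (Sᶜ ∪ insert c' R) r := comps_connected hK hr hKT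
  have hcc' : c ≠ c' := by
    rintro rfl
    exact comp_notMem_X hD hc' (Or.inl rfl)
  have hccl : c ∈ cl G (Sᶜ ∪ insert c' R) r := by
    obtain ⟨k, hk, ha⟩ := hck
    refine cl_step (hKcl hk) ha.symm (notMem_union hc ?_)
    rintro (h1 | h1)
    · exact hcc' h1
    · exact hcR h1
  have hr' : r ∉ Sᶜ ∪ insert c' R := hKT r hr
  have hsub : D' ⊆ D := by
    intro q hq
    by_contra hqD
    have hq1 : q ∈ S := comp_mem_S hD' hq
    have hq2 : q ∉ insert c' R := comp_notMem_X hD' hq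
    have hqcl : q ∈ cl G (Sᶜ ∪ insert c' R) r := by
      by_cases hqc : q = c
      · rw [hqc]
        exact hccl
      · have hq3 : q ∉ Sᶜ ∪ insert c R := by
          refine notMem_union hq1 ?_
          rintro (h1 | h1)
          · exact hqc h1
          · exact hq2 (Or.inr h1)
        exact hKcl ((mem_of_cc_two h2 hK hD hKD hq3).resolve_right hqD)
    have h3 := (comps_eq_cl hD' hq).2
    rw [cl_eq hr' hqcl] at h3
    exact hrD' (by rw [h3]; exact self_mem G _ r)
  refine Set.ncard_lt_ncard ⟨hsub, fun h' => ?_⟩ (Set.toFinite _)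
  exact comp_notMem_X hD' (h' hc') (Or.inl rfl)

end Pool.Agent.H280.TF
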