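import Pool.Agent.H280.TFMain2

/-!
# Gluing at a separating vertex, and the theorem for pairs
-/

set_option autoImplicit false
set_option linter.unusedSectionVars false

namespace Pool.Agent.H280.TF

open H629.AccG

variable {V : Type*} {G : SimpleGraph V} {S W X Y R T T' P H H' : Set V}
  {x y z u v w t a c p q : V} {K D : Set V}

/-- a separating vertex `v` of the pair and the two components -/
structure Spl (G : SimpleGraph V) (S W : Set V) (v : V) (H H' : Set V) : Prop where
  acc : PAcc G S W
  vS : v ∈ S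
  vW : v ∉ W
  hH : H ∈ comps G (Sᶜ ∪ {v})
  hH' : H' ∈ comps G (Sᶜ ∪ {v})
  hne : H ≠ H'
  cov : ∀ x ∈ S, x ≠ v → x ∈ H ∨ x ∈ H'
  adj : ∃ y ∈ H, G.Adj v y
  adj' : ∃ y ∈ H', G.Adj v y

namespace Spl

theorem symm (h : Spl G S W v H H') : Spl G S W v H' H :=
  ⟨h.acc, h.vS, h.vW, h.hH', h.hH, h.hne.symm, fun x hx hxv => (h.cov x hx hxv).symm, h.adj',
    h.adj⟩

theorem HS (h : Spl G S W v H H') (hx : x ∈ H) : x ∈ S := comp_mem_S h.hH hx

theorem Hv (h : Spl G S W v H H') (hx : x ∈ H) : x ≠ v := fun h' =>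
  comp_notMem_X h.hH hx h'

theorem HH (h : Spl G S W v H H') (hx : x ∈ H) : x ∉ H' := fun h' =>
  h.hne (comps_eq h.hH h.hH' hx h')

theorem noadj (h : Spl G S W v H H') (hx : x ∈ H) (hy : y ∈ H') : ¬ G.Adj x y := fun ha =>
  h.symm.HH hy (comp_step h.hH hx ha (h.symm.HS hy) (h.symm.Hv hy))

theorem S1S (h : Spl G S W v H H') (hx : x ∈ insert v H) : x ∈ S := by
  rcases hx with h1 | h1
  · rw [h1]
    exact h.vS
  · exact h.HS h1

theorem compA (h : Spl G S W v H H')
    (hK : K ∈ comps G ((insert v H)ᶜ ∪ X)) (hvK : v ∉ K) : K ∈ comps G (Sᶜ ∪ X) := by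
  have hKH : ∀ y ∈ K, y ∈ H := by
    intro y hy
    rcases comp_mem_S hK hy with h1 | h1
    · rw [h1] at hy
      exact absurd hy hvK
    · exact h1
  refine comps_transfer hK ?_ ?_
  · intro y hy
    exact notMem_union (h.HS (hKH y hy)) (comp_notMem_X hK hy)
  · intro u hu y ha hy
    rcases comps_bd hK hu ha hy with h1 | h1
    · left
      intro hyS
      have hyv : y ≠ v := fun h' => h1 (Or.inl h')
      rcases h.cov y hyS hyv with h2 | h2
      · exact h1 (Or.inr h2)
      · exact h.noadj (hKH u hu) h2 ha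
    · exact Or.inr h1

theorem compB (h : Spl G S W v H H') (hK : K ∈ comps G (Sᶜ ∪ X))
    (hKH' : ∀ y ∈ K, y ∉ H') : K ∈ comps G ((insert v H)ᶜ ∪ X) := by
  refine comps_transfer hK ?_ ?_
  · intro y hy
    refine notMem_union ?_ (comp_notMem_X hK hy)
    by_cases hyv : y = v
    · exact Or.inl hyv
    · exact Or.inr ((h.cov y (comp_mem_S hK hy) hyv).resolve_right (hKH' y hy))
  · intro u hu y ha hy
    rcases comps_bd hK hu ha hy with h1 | h1
    · left
      exact fun h2 => h1 (h.S1S h2)
    · exact Or.inr h1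

theorem H'X (h : Spl G S W v H H') (hX : X ⊆ insert v H) (hx : x ∈ X) : x ∉ H' := by
  rcases hX hx with h1 | h1
  · rw [h1]
    exact fun h2 => h.symm.Hv h2 rfl
  · exact h.HH h1

theorem H'comp (h : Spl G S W v H H') (hX : X ⊆ insert v H) (hvX : v ∈ X) :
    H' ∈ comps G (Sᶜ ∪ X) := by
  refine comps_transfer h.hH' ?_ ?_
  · intro y hy
    exact notMem_union (h.symm.HS hy) (fun h' => h.H'X hX h' hy)
  · intro u hu y ha hy
    rcases comps_bd h.hH' hu ha hy with h1 | h1
    · exact Or.inl h1
    · rw [Set.mem_singleton_iff] at h1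
      rw [h1]
      exact Or.inr hvX

theorem notH' (h : Spl G S W v H H') (hX : X ⊆ insert v H) (hvX : v ∉ X)
    (hK : K ∈ comps G (Sᶜ ∪ X)) (hvK : v ∉ K) : ∀ y ∈ K, y ∉ H' := by
  intro y hy hyH
  have h1 : H' ⊆ cl G (Sᶜ ∪ X) y := by
    refine comps_connected h.hH' hyH ?_
    intro y' hy'
    exact notMem_union (h.symm.HS hy') (fun h' => h.H'X hX h' hy')
  rw [← (comps_eq_cl hK hy).2] at h1
  obtain ⟨y', hy', ha⟩ := h.adj'
  exact hvK (comp_step hK (h1 hy') ha.symm h.vS hvX)

variable [Finite V]

theorem cc_insert (hv : v ∉ T) : cc G T = {K | K ∈ comps G T ∧ v ∉ K}.ncard + 1 := by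
  have h1 : comps G T = insert (cl G T v) {K | K ∈ comps G T ∧ v ∉ K} := by
    ext K
    constructor
    · intro hK
      by_cases hvK : v ∈ K
      · exact Or.inl (comps_eq_cl hK hvK).2
      · exact Or.inr ⟨hK, hvK⟩
    · rintro (rfl | hK)
      · exact cl_mem_comps hv
      · exact hK.1
  have h2 : cl G T v ∉ {K | K ∈ comps G T ∧ v ∉ K} := fun h' => h'.2 (self_mem G T v)
  unfold cc
  conv_lhs => rw [h1]
  exact Set.ncard_insert_of_notMem h2

theorem cc_out (h : Spl G S W v H H') (hX : X ⊆ insert v H) (hvX : v ∉ X) :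
    cc G ((insert v H)ᶜ ∪ X) = cc G (Sᶜ ∪ X) := by
  rw [cc_insert (v := v) (notMem_union h.vS hvX), cc_insert (v := v) (notMem_union (Or.inl rfl) hvX)]
  congr 2
  ext K
  constructor
  · rintro ⟨hK, hvK⟩
    exact ⟨h.compA hK hvK, hvK⟩
  · rintro ⟨hK, hvK⟩
    exact ⟨h.compB hK (h.notH' hX hvX hK hvK), hvK⟩

theorem H'not (h : Spl G S W v H H') : H' ∉ comps G ((insert v H)ᶜ ∪ X) := by
  intro hK
  obtain ⟨y, hy⟩ := comps_nonempty h.hH'
  rcases comp_mem_S hK hy with h1 | h1
  · exact h.symm.Hv hy h1
  · exact h.HH h1 hy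

theorem cc_in (h : Spl G S W v H H') (hX : X ⊆ insert v H) (hvX : v ∈ X) :
    cc G (Sᶜ ∪ X) = cc G ((insert v H)ᶜ ∪ X) + 1 := by
  have hH' := h.H'comp hX hvX
  have h1 : comps G (Sᶜ ∪ X) = insert H' (comps G ((insert v H)ᶜ ∪ X)) := by
    ext K
    constructor
    · intro hK
      by_cases hKH : K = H'
      · exact Or.inl hKH
      · refine Or.inr (h.compB hK ?_)
        intro y hy hyH
        exact hKH (comps_eq hK hH' hy hyH)
    · rintro (rfl | hK)
      · exact hH'
      · exact h.compA hK (fun h' => comp_notMem_X hK h' hvX)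
  unfold cc
  rw [h1]
  exact Set.ncard_insert_of_notMem h.H'not

theorem two_iff (h : Spl G S W v H H') (hX : X ⊆ insert v H) (huv : u ≠ v) :
    cc G (Sᶜ ∪ (X \ {u})) < cc G (Sᶜ ∪ X) ↔
      cc G ((insert v H)ᶜ ∪ (X \ {u})) < cc G ((insert v H)ᶜ ∪ X) := by
  have hX' : X \ {u} ⊆ insert v H := fun y hy => hX hy.1
  by_cases hvX : v ∈ X
  · have hvX' : v ∈ X \ {u} := ⟨hvX, fun h' => huv h'.symm⟩
    rw [h.cc_in hX hvX, h.cc_in hX' hvX']
    omega
  · have hvX' : v ∉ X \ {u} := fun h' => hvX h'.1
    rw [h.cc_out hX hvX, h.cc_out hX' hvX']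

theorem up (h : Spl G S W v H H') (hX : PCut G (insert v H) (insert v (W ∩ H)) X) :
    PCut G S W X := by
  refine ⟨fun y hy => h.S1S (hX.sub hy), ?_, ?_⟩
  · intro w hw hwW
    have hwv : w ≠ v := fun h' => h.vW (h' ▸ hwW)
    have hwH : w ∈ H := (hX.sub hw).resolve_left hwv
    obtain ⟨y, hy, hyX, ha⟩ := hX.good w hw (Or.inr ⟨hwW, hwH⟩)
    exact ⟨y, h.S1S hy, hyX, ha⟩
  · intro u hu huW
    by_cases huv : u = v
    · subst huv
      obtain ⟨y, hy, hyX, ha⟩ := hX.good u hu (Or.inl rfl)
      have hyH : y ∈ H := hy.resolve_left ha.ne.symm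
      have h1 : 2 ≤ H629.AccG.deg G (Sᶜ ∪ X) u := by
        refine two_le_deg (cl_mem_comps (notMem_union (h.HS hyH) hyX)) (h.H'comp hX.sub hu)
          ⟨y, self_mem G _ y, ha⟩ h.adj' ?_
        intro he
        exact h.HH hyH (by rw [← he]; exact self_mem G _ y)
      have h2 := cc_erase' (G := G) h.vS hu
      omega
    · rw [h.two_iff hX.sub huv]
      refine hX.two u hu ?_
      rintro (h1 | h1)
      · exact huv h1
      · exact huW h1.1

theorem down (h : Spl G S W v H H') (hXS : X ⊆ insert v H) (hX : PCut G S W X) :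
    PCut G (insert v H) (insert v (W ∩ H)) X := by
  refine ⟨hXS, ?_, ?_⟩
  · rintro w hw (hw' | hw')
    · subst hw'
      have h1 := hX.deg hw h.vW
      have h2 : ∃ K ∈ comps G (Sᶜ ∪ X), K ≠ H' ∧ ∃ y ∈ K, G.Adj w y := by
        have h1 : 1 < {K | K ∈ comps G (Sᶜ ∪ X) ∧ ∃ y ∈ K, G.Adj w y}.ncard := h1
        rw [Set.one_lt_ncard_iff (Set.toFinite _)] at h1
        obtain ⟨K1, K2, ⟨hK1, hy1⟩, ⟨hK2, hy2⟩, hne⟩ := h1
        by_cases h3 : K1 = H'
        · exact ⟨K2, hK2, fun h' => hne (h3.trans h'.symm), hy2⟩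
        · exact ⟨K1, hK1, h3, hy1⟩
      obtain ⟨K, hK, hKH, y, hy, ha⟩ := h2
      refine ⟨y, ?_, comp_notMem_X hK hy, ha⟩
      right
      refine (h.cov y (comp_mem_S hK hy) ha.ne.symm).resolve_right ?_
      intro hyH
      exact hKH (comps_eq hK (h.H'comp hXS hw) hy hyH)
    · obtain ⟨y, hy, hyX, ha⟩ := hX.good w hw hw'.1
      refine ⟨y, ?_, hyX, ha⟩
      by_cases hyv : y = v
      · exact Or.inl hyv
      · right
        refine (h.cov y hy hyv).resolve_right ?_
        exact fun hyH => h.noadj hw'.2 hyH ha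
  · intro u hu huW
    have huv : u ≠ v := fun h' => huW (Or.inl h')
    have huW' : u ∉ W := fun h' => huW (Or.inr ⟨h', (hXS hu).resolve_left huv⟩)
    rw [← h.two_iff hXS huv]
    exact hX.two u hu huW'

/-- the pair on one side of a separating vertex is accessible -/
theorem part (h : Spl G S W v H H') : PAcc G (insert v H) (insert v (W ∩ H)) := by
  refine ⟨?_, ?_, ?_, ?_⟩
  · rintro x (hx | hx)
    · exact Or.inl hx
    · exact Or.inr hx.2
  · have h1 := h.cc_out (X := ∅) (Set.empty_subset _) (Set.notMem_empty v)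
    rw [Set.union_empty, Set.union_empty] at h1
    rw [h1]
    exact h.acc.conn
  · intro X hX
    have h1 := h.acc.unm X (h.up hX)
    by_cases hvX : v ∈ X
    · rw [h.cc_in hX.sub hvX] at h1
      have h2 : X \ W = insert v (X \ insert v (W ∩ H)) := by
        ext y
        constructor
        · rintro ⟨h2, h3⟩
          by_cases hyv : y = v
          · exact Or.inl hyv
          · right
            refine ⟨h2, ?_⟩
            rintro (h4 | h4)
            · exact hyv h4
            · exact h3 h4.1
        · rintro (h2 | h2)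
          · rw [h2]
            exact ⟨hvX, h.vW⟩
          · refine ⟨h2.1, fun h3 => h2.2 ?_⟩
            by_cases hyv : y = v
            · exact Or.inl hyv
            · exact Or.inr ⟨h3, (hX.sub h2.1).resolve_left hyv⟩
      have h3 : v ∉ X \ insert v (W ∩ H) := fun h' => h'.2 (Or.inl rfl)
      rw [h2, Set.ncard_insert_of_notMem h3] at h1
      omega
    · rw [h.cc_out hX.sub hvX, h1]
      congr 2
      ext y
      constructor
      · rintro ⟨h2, h3⟩
        refine ⟨h2, ?_⟩
        rintro (h4 | h4)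
        · exact hvX (h4 ▸ h2)
        · exact h3 h4.1
      · rintro ⟨h2, h3⟩
        refine ⟨h2, fun h4 => h3 (Or.inr ⟨h4, ?_⟩)⟩
        exact (hX.sub h2).resolve_left fun h5 => hvX (h5 ▸ h2)
  · intro X hX hne
    obtain ⟨x, hx, hx'⟩ := h.acc.acc X (h.up hX) hne
    exact ⟨x, hx, h.down (fun y hy => hX.sub hy.1) hx'⟩

theorem nb_eq (h : Spl G S W v H H') (hx : x ∈ H) : Nb G (insert v H) x = Nb G S x := by
  ext y
  constructor
  · rintro ⟨hy, ha⟩
    exact ⟨h.S1S hy, ha⟩
  · rintro ⟨hy, ha⟩
    refine ⟨?_, ha⟩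
    by_cases hyv : y = v
    · exact Or.inl hyv
    · exact Or.inr ((h.cov y hy hyv).resolve_right fun hyH => h.noadj hx hyH ha)

theorem lf_eq (h : Spl G S W v H H') :
    Lf G (insert v H) (insert v (W ∩ H)) = insert v (Lf G S W ∩ H) := by
  ext x
  constructor
  · rintro ⟨hx, hx'⟩
    by_cases hxv : x = v
    · exact Or.inl hxv
    · have hxH : x ∈ H := hx.resolve_left hxv
      right
      refine ⟨⟨h.HS hxH, ?_⟩, hxH⟩
      rcases hx' with (h1 | h1) | h1
      · exact absurd h1 hxv
      · exact Or.inl h1.1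
      · rw [h.nb_eq hxH] at h1
        exact Or.inr h1
  · rintro (hx | ⟨⟨hx, hx'⟩, hxH⟩)
    · rw [hx]
      exact ⟨Or.inl rfl, Or.inl (Or.inl rfl)⟩
    · refine ⟨Or.inr hxH, ?_⟩
      rcases hx' with h1 | h1
      · exact Or.inl (Or.inr ⟨h1, hxH⟩)
      · rw [← h.nb_eq hxH] at h1
        exact Or.inr h1

theorem lf_card (h : Spl G S W v H H')
    (h1 : (Lf G (insert v H) (insert v (W ∩ H))).ncard = 2)
    (h2 : (Lf G (insert v H') (insert v (W ∩ H'))).ncard = 2) : (Lf G S W).ncard = 2 := by
  rw [h.lf_eq, Set.ncard_insert_of_notMem (fun h' => h.Hv h'.2 rfl)] at h1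
  rw [h.symm.lf_eq, Set.ncard_insert_of_notMem (fun h' => h.symm.Hv h'.2 rfl)] at h2
  have hv : v ∉ Lf G S W := by
    rintro ⟨-, h3 | h3⟩
    · exact h.vW h3
    · have h4 : (Nb G S v).ncard ≤ 1 := h3.le
      rw [Set.ncard_le_one_iff (Set.toFinite _)] at h4
      obtain ⟨y, hy, ha⟩ := h.adj
      obtain ⟨y', hy', ha'⟩ := h.adj'
      have h5 := h4 ⟨h.HS hy, ha⟩ ⟨h.symm.HS hy', ha'⟩
      rw [h5] at hy
      exact h.HH hy hy'
  have h3 : Lf G S W = (Lf G S W ∩ H) ∪ (Lf G S W ∩ H') := by
    ext x
    constructor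
    · intro hx
      have hxv : x ≠ v := fun h' => hv (h' ▸ hx)
      rcases h.cov x hx.1 hxv with h4 | h4
      · exact Or.inl ⟨hx, h4⟩
      · exact Or.inr ⟨hx, h4⟩
    · rintro (h4 | h4)
      · exact h4.1
      · exact h4.1
  have h4 : Disjoint (Lf G S W ∩ H) (Lf G S W ∩ H') := by
    rw [Set.disjoint_left]
    rintro x ⟨-, h5⟩ ⟨-, h6⟩
    exact h.HH h5 h6
  rw [h3, Set.ncard_union_eq h4]
  omega

theorem card_lt (h : Spl G S W v H H') : (insert v H).ncard < S.ncard := by
  refine Set.ncard_lt_ncard ⟨fun x hx => h.S1S hx, fun h' => ?_⟩ (Set.toFinite _)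
  obtain ⟨y, hy⟩ := comps_nonempty h.hH'
  rcases h' (h.symm.HS hy) with h1 | h1
  · exact h.symm.Hv hy h1
  · exact h.HH h1 hy

theorem two_le (h : Spl G S W v H H') : 2 ≤ (insert v H).ncard := by
  obtain ⟨y, hy⟩ := comps_nonempty h.hH
  have h1 : ({v, y} : Set V) ⊆ insert v H := by
    rintro x (hx | hx)
    · exact Or.inl hx
    · rw [Set.mem_singleton_iff] at hx
      rw [hx]
      exact Or.inr hy
  have h2 := Set.ncard_le_ncard h1 (Set.toFinite _)
  rwa [Set.ncard_pair (h.Hv hy).symm] at h2

end Spl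

variable [Finite V]

/-- a separating vertex gives a splitting -/
theorem PAcc.split (h : PAcc G S W) (hv : v ∈ S) (hsep : ¬ cc G (Sᶜ ∪ {v}) ≤ 1) :
    ∃ H H', Spl G S W v H H' := by
  have h2 : 1 < (comps G (Sᶜ ∪ {v})).ncard := by
    have : ¬ (comps G (Sᶜ ∪ {v})).ncard ≤ 1 := hsep
    omega
  rw [Set.one_lt_ncard_iff (Set.toFinite _)] at h2
  obtain ⟨H, H', hH, hH', hne⟩ := h2
  have hvW : v ∉ W := by
    intro hvW
    have hg : Good G S W {v} := by
      intro w hw _
      rw [Set.mem_singleton_iff] at hw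
      subst hw
      by_contra hcon
      push Not at hcon
      obtain ⟨x, hx⟩ := comps_nonempty hH
      have h1 : cl G Sᶜ w ⊆ {w} := by
        refine cl_sub ?_ rfl
        intro u hu y ha hy
        rw [Set.mem_singleton_iff] at hu
        subst hu
        exact absurd ha (hcon y (by simpa using hy) ha.ne.symm)
      exact comp_notMem_X hH hx (h1 (h.reach hv (comp_mem_S hH hx)))
    have h1 := h.bound (X := {v}) (by simpa using hv) hg
    have h3 : ({v} : Set V) \ W = ∅ := by
      ext y
      constructor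
      · rintro ⟨h4, h5⟩
        rw [Set.mem_singleton_iff] at h4
        rw [h4] at h5
        exact absurd hvW h5
      · intro h4
        exact absurd h4 (Set.notMem_empty y)
    rw [h3, Set.ncard_empty] at h1
    exact hsep h1
  have h3 : ({v} : Set V) \ W = {v} := by
    ext y
    constructor
    · exact fun h4 => h4.1
    · intro h4
      refine ⟨h4, ?_⟩
      rw [Set.mem_singleton_iff] at h4
      rw [h4]
      exact hvW
  have hcut : PCut G S W (insert v ∅) := by
    rw [insert_empty_eq]
    refine h.cut_of_le (by simpa using hv) ?_ ?_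
    · intro w hw hwW
      rw [Set.mem_singleton_iff] at hw
      rw [hw] at hwW
      exact absurd hwW hvW
    · rw [h3, Set.ncard_singleton]
      omega
  have hcc := h.elem_two (Set.empty_subset W) hvW hcut
  have hadj : ∀ K ∈ comps G (Sᶜ ∪ {v}), ∃ y ∈ K, G.Adj v y := by
    intro K hK
    refine h.elem_adj (Set.empty_subset W) hvW hcut ?_
    rw [insert_empty_eq]
    exact hK
  rw [insert_empty_eq] at hcc
  refine ⟨H, H', h, hv, hvW, hH, hH', hne, ?_, hadj H hH, hadj H' hH'⟩
  intro x hx hxv
  exact mem_of_cc_two hcc.le hH hH' hne (notMem_union hx hxv)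

/-- **Theorem for pairs**: two leaves, and a proper colouring with two colours -/
theorem pair_main (tf : ∀ x y z, G.Adj x y → G.Adj y z → ¬ G.Adj x z) (n : ℕ) :
    ∀ S W : Set V, S.ncard = n → 2 ≤ n → PAcc G S W → (Lf G S W).ncard = 2 ∧
      ∃ A : Set V, ∀ x ∈ S, ∀ y ∈ S, G.Adj x y → (x ∈ A ↔ y ∉ A) := by
  induction n using Nat.strong_induction_on with
  | _ n ih =>
    intro S W hn h2 h
    by_cases hns : ∀ v ∈ S, cc G (Sᶜ ∪ {v}) ≤ 1
    · by_cases h3 : 3 ≤ S.ncard
      · have hc : Ctx G S W := ⟨h, tf, hns, h3⟩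
        have hih : IH G S := fun S' W' hlt hle hacc =>
          (ih S'.ncard (hn ▸ hlt) S' W' rfl hle hacc).1
        have hW := hc.card_W hih
        refine ⟨?_, hc.bip hW⟩
        rw [← hW]
        congr 1
        ext x
        constructor
        · rintro ⟨hx, h4 | h4⟩
          · exact h4
          · exfalso
            obtain ⟨y, hy⟩ := Set.ncard_eq_one.1 h4
            have hy1 : y ∈ Nb G S x := by
              rw [hy]
              rfl
            obtain ⟨z, hz, hzy, hxz⟩ := hc.no_leaf hy1.1 hx hy1.2.symm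
            have hz1 : z ∈ Nb G S x := ⟨hz, hxz⟩
            rw [hy] at hz1
            exact hzy hz1
        · intro hx
          exact ⟨h.WS hx, Or.inl hx⟩
      · have hS2 : S.ncard = 2 := by omega
        obtain ⟨p, q, hpq, hS⟩ := Set.ncard_eq_two.1 hS2
        have hpS : p ∈ S := by
          rw [hS]
          exact Or.inl rfl
        have hqS : q ∈ S := by
          rw [hS]
          exact Or.inr rfl
        have hadj : G.Adj p q := by
          by_contra hpq'
          have h1 : cl G Sᶜ p ⊆ {p} := by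
            refine cl_sub ?_ rfl
            intro u hu y ha hy
            rw [Set.mem_singleton_iff] at hu
            subst hu
            have hyS : y ∈ S := by simpa using hy
            rw [hS] at hyS
            rcases hyS with h4 | h4
            · exact h4
            · rw [Set.mem_singleton_iff] at h4
              rw [h4] at ha
              exact absurd ha hpq'
          exact hpq (h1 (h.reach hpS hqS)).symm
        refine ⟨?_, {p}, ?_⟩
        · have hLf : Lf G S W = S := by
            ext x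
            constructor
            · exact fun hx => hx.1
            · intro hx
              refine ⟨hx, Or.inr ?_⟩
              rw [hS] at hx
              rcases hx with h4 | h4
              · rw [h4]
                have : Nb G S p = {q} := by
                  ext y
                  constructor
                  · rintro ⟨hy, ha⟩
                    rw [hS] at hy
                    exact hy.resolve_left ha.ne.symm
                  · intro hy
                    rw [Set.mem_singleton_iff] at hy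
                    rw [hy]
                    exact ⟨hqS, hadj⟩
                rw [this, Set.ncard_singleton]
              · rw [Set.mem_singleton_iff] at h4
                rw [h4]
                have : Nb G S q = {p} := by
                  ext y
                  constructor
                  · rintro ⟨hy, ha⟩
                    rw [hS] at hy
                    rcases hy with h5 | h5
                    · exact h5
                    · exact absurd h5 ha.ne.symm
                  · intro hy
                    rw [Set.mem_singleton_iff] at hy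
                    rw [hy]
                    exact ⟨hpS, hadj.symm⟩
                rw [this, Set.ncard_singleton]
          rw [hLf]
          exact hS2
        · intro x hx y hy hxy
          rw [hS] at hx hy
          constructor
          · intro h4 h5
            rw [Set.mem_singleton_iff] at h4 h5
            exact hxy.ne (h4.trans h5.symm)
          · intro h4
            rcases hx with h5 | h5
            · exact h5
            · rcases hy with h6 | h6
              · exact absurd h6 h4
              · exact absurd (h5.trans h6.symm) hxy.ne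
    · push Not at hns
      obtain ⟨v, hv, hsep⟩ := hns
      obtain ⟨H, H', hs⟩ := h.split hv (by omega)
      obtain ⟨l1, A1, hA1⟩ := ih _ (hn ▸ hs.card_lt) _ _ rfl hs.two_le hs.part
      obtain ⟨l2, A2, hA2⟩ := ih _ (hn ▸ hs.symm.card_lt) _ _ rfl hs.symm.two_le hs.symm.part
      refine ⟨hs.lf_card l1 l2, ?_⟩
      -- both colourings may be assumed to contain `v`
      have key : ∀ (B A : Set V), (∀ x ∈ B, ∀ y ∈ B, G.Adj x y → (x ∈ A ↔ y ∉ A)) →
          ∃ A' : Set V, v ∈ A' ∧ ∀ x ∈ B, ∀ y ∈ B, G.Adj x y → (x ∈ A' ↔ y ∉ A') := by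
        intro B A hA
        by_cases hvA : v ∈ A
        · exact ⟨A, hvA, hA⟩
        · refine ⟨Aᶜ, hvA, ?_⟩
          intro x hx y hy hxy
          have := hA x hx y hy hxy
          simp only [Set.mem_compl_iff]
          tauto
      obtain ⟨B1, hv1, hB1⟩ := key _ _ hA1
      obtain ⟨B2, hv2, hB2⟩ := key _ _ hA2
      refine ⟨{x | (x ∈ insert v H ∧ x ∈ B1) ∨ (x ∈ H' ∧ x ∈ B2)}, ?_⟩
      have e0 : v ∈ {x | (x ∈ insert v H ∧ x ∈ B1) ∨ (x ∈ H' ∧ x ∈ B2)} :=
        Or.inl ⟨Or.inl rfl, hv1⟩
      have e1 : ∀ x ∈ H, (x ∈ {x | (x ∈ insert v H ∧ x ∈ B1) ∨ (x ∈ H' ∧ x ∈ B2)} ↔ x ∈ B1) := by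
        intro x hx
        constructor
        · rintro (h4 | h4)
          · exact h4.2
          · exact absurd h4.1 (hs.HH hx)
        · exact fun h4 => Or.inl ⟨Or.inr hx, h4⟩
      have e2 : ∀ x ∈ H', (x ∈ {x | (x ∈ insert v H ∧ x ∈ B1) ∨ (x ∈ H' ∧ x ∈ B2)} ↔ x ∈ B2) := by
        intro x hx
        constructor
        · rintro (h4 | h4)
          · rcases h4.1 with h5 | h5
            · exact absurd h5 (hs.symm.Hv hx)
            · exact absurd hx (hs.HH h5)
          · exact h4.2
        · exact fun h4 => Or.inr ⟨hx, h4⟩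
      intro x hx y hy hxy
      by_cases hxv : x = v
      · subst hxv
        rcases hs.cov y hy hxy.ne.symm with h4 | h4
        · rw [e1 y h4]
          have := hB1 x (Or.inl rfl) y (Or.inr h4) hxy
          tauto
        · rw [e2 y h4]
          have := hB2 x (Or.inl rfl) y (Or.inr h4) hxy
          tauto
      · by_cases hyv : y = v
        · subst hyv
          rcases hs.cov x hx hxy.ne with h4 | h4
          · rw [e1 x h4]
            have := hB1 x (Or.inr h4) y (Or.inl rfl) hxy
            tauto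
          · rw [e2 x h4]
            have := hB2 x (Or.inr h4) y (Or.inl rfl) hxy
            tauto
        · rcases hs.cov x hx hxv with h4 | h4 <;> rcases hs.cov y hy hyv with h5 | h5
          · rw [e1 x h4, e1 y h5]
            exact hB1 x (Or.inr h4) y (Or.inr h5) hxy
          · exact absurd hxy (hs.noadj h4 h5)
          · exact absurd hxy.symm (hs.noadj h5 h4)
          · rw [e2 x h4, e2 y h5]
            exact hB2 x (Or.inr h4) y (Or.inr h5) hxy

end Pool.Agent.H280.TF
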