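import Pool.Agent.H280.TFPend

/-!
# Accessible triangle-free pairs without a separating vertex have two leaves
-/

set_option autoImplicit false
set_option linter.unusedSectionVars false

namespace Pool.Agent.H280.TF

open H629.AccG

variable {V : Type*} {G : SimpleGraph V} {S W X Y R T T' P : Set V} {x y z u v w t a c p q : V}
  {K D : Set V}

/-- components of the complement of an edgeless remainder -/
theorem cc_indep (hI : ∀ x ∉ T, ∀ y ∉ T, ¬ G.Adj x y) : cc G T = Tᶜ.ncard := by
  have h1 : comps G T = (fun x => ({x} : Set V)) '' Tᶜ := by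
    ext K
    constructor
    · rintro ⟨x, hx, rfl⟩
      refine ⟨x, hx, ?_⟩
      refine Set.Subset.antisymm ?_ (cl_sub ?_ rfl)
      · rintro _ rfl
        exact self_mem G _ _
      · intro u hu y ha hy
        rw [Set.mem_singleton_iff] at hu
        subst hu
        exact absurd ha (hI u hx y hy)
    · rintro ⟨x, hx, rfl⟩
      refine ⟨x, hx, ?_⟩
      refine Set.Subset.antisymm ?_ (cl_sub ?_ rfl)
      · rintro _ rfl
        exact self_mem G _ _
      · intro u hu y ha hy
        rw [Set.mem_singleton_iff] at hu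
        subst hu
        exact absurd ha (hI u hx y hy)
  unfold cc
  rw [h1]
  exact Set.ncard_image_of_injective _ Set.singleton_injective

namespace Ctx

variable [Finite V]

/-- there is a second component of an elementary cut set -/
theorem other (h : Ctx G S W) (hR : R ⊆ W) (hcW : c ∉ W) (hX : PCut G S W (insert c R))
    (hK : K ∈ comps G (Sᶜ ∪ insert c R)) :
    ∃ D ∈ comps G (Sᶜ ∪ insert c R), K ≠ D := by
  have h1 := h.acc.elem_two hR hcW hX
  by_contra hcon
  push Not at hcon
  have h2 : comps G (Sᶜ ∪ insert c R) = {K} := by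
    ext L
    constructor
    · intro hL
      exact (hcon L hL).symm
    · rintro rfl
      exact hK
  have h3 : (comps G (Sᶜ ∪ insert c R)).ncard = 2 := h1
  rw [h2, Set.ncard_singleton] at h3
  omega

/-- Case I: a pendant vertex outside `W` -/
theorem caseI (h : Ctx G S W) (ih : IH G S) (hp : Pend G S W a t) (haW : a ∉ W) :
    W.ncard = 2 := by
  -- `W` consists of the neighbours of `a` and of one further vertex
  obtain ⟨z0, hz0, haz0⟩ := h.w_pos hp.ha
  obtain ⟨w, hw, hz0w⟩ := h.w_pos (h.acc.WS hz0)
  have hwa : ¬ G.Adj a w := fun h' => h.tf a z0 w haz0 hz0w h'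
  have hle := h.red_out ih hp haW
  have hW : ∀ x ∈ W, G.Adj a x ∨ x = w := by
    intro x hx
    by_cases hax : G.Adj a x
    · exact Or.inl hax
    · right
      rw [Set.ncard_le_one_iff (Set.toFinite _)] at hle
      exact hle ⟨hx, fun h' => hax h'.2⟩ ⟨hw, fun h' => hwa h'.2⟩
  have hcomp : ∀ z ∈ W, G.Adj a z → G.Adj z w := by
    intro z hz haz
    obtain ⟨x, hx, hzx⟩ := h.w_pos (h.acc.WS hz)
    rcases hW x hx with h1 | h1
    · exact absurd h1 (h.tf a z x haz hzx)
    · rw [h1] at hzx
      exact hzx
  have hsplit : W = insert w (Nb G W a) := by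
    ext x
    constructor
    · intro hx
      rcases hW x hx with h1 | h1
      · exact Or.inr ⟨hx, h1⟩
      · exact Or.inl h1
    · rintro (h1 | h1)
      · rw [h1]
        exact hw
      · exact h1.1
  have hwZ : w ∉ Nb G W a := fun h' => hwa h'.2
  have hcard : W.ncard = (Nb G W a).ncard + 1 := by
    conv_lhs => rw [hsplit]
    exact Set.ncard_insert_of_notMem hwZ
  by_contra hne
  have hZ2 : 1 < (Nb G W a).ncard := by
    have h1 : 0 < (Nb G W a).ncard := by
      rw [Set.ncard_pos (Set.toFinite _)]
      exact ⟨z0, hz0, haz0⟩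
    omega
  -- neighbours in `W` of the elements of `Z`
  have hNz : ∀ z ∈ W, G.Adj a z → Nb G W z = {w} := by
    intro z hz haz
    ext x
    constructor
    · rintro ⟨hx, hzx⟩
      rcases hW x hx with h1 | h1
      · exact absurd h1 (h.tf a z x haz hzx)
      · exact h1
    · intro hx
      rw [Set.mem_singleton_iff] at hx
      rw [hx]
      exact ⟨hw, hcomp z hz haz⟩
  have hWw : W \ {w} = Nb G W a := by
    ext x
    constructor
    · rintro ⟨hx, hxw⟩
      exact ⟨hx, (hW x hx).resolve_right hxw⟩
    · rintro ⟨hx, hax⟩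
      refine ⟨hx, ?_⟩
      intro h1
      rw [Set.mem_singleton_iff] at h1
      rw [h1] at hax
      exact hwa hax
  -- the elementary cut set of `z0`
  obtain ⟨c, hc, hcW, hzc, hX⟩ := h.elem_at (h.acc.WS hz0)
  rw [hNz z0 hz0 haz0] at hX
  have hRW : ({w} : Set V) ⊆ W := by
    rintro x hx
    rw [Set.mem_singleton_iff] at hx
    rw [hx]
    exact hw
  have hcc := h.acc.elem_two hRW hcW hX
  by_cases hca : c = a
  · subst hca
    -- a component inside `W`
    have htT : t ∉ Sᶜ ∪ insert c {w} := by
      refine notMem_union hp.ht ?_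
      rintro (h1 | h1)
      · exact hp.adj.ne h1.symm
      · rw [Set.mem_singleton_iff] at h1
        rw [h1] at hp
        exact hp.tW hw
    obtain ⟨D, hD, hKD⟩ := h.other hRW hcW hX (cl_mem_comps (G := G) htT)
    have htD : t ∉ D := fun h' => hKD (comps_eq (cl_mem_comps htT) hD (self_mem G _ t) h')
    obtain ⟨p, hpD, hpW, hpp, hpn⟩ : ∃ p ∈ D, p ∈ W ∧ Pend G S W p c ∧
        ∀ q ∈ S, G.Adj p q → q ∈ insert c ({w} : Set V) := by
      rcases h.elem_type hRW hc hcW hX hD with ⟨u, hu, huW⟩ | h1
      · exfalso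
        obtain ⟨v, hv, hvW, hcv⟩ := h.adjU hRW hc hcW hD hu huW
        have := hp.uniq v (comp_mem_S hD hv) hvW hcv
        exact htD (this ▸ hv)
      · exact h1
    have hNp : Nb G W p = {w} := hNz p hpW hpp.adj.symm
    have h5 := h.red_in ih hpp
    rw [hNp, hWw] at h5
    have h6 : (Nb G W c).ncard = 2 := by omega
    -- the other element of `Z`
    obtain ⟨z, hz, hzp⟩ := Set.exists_ne_of_one_lt_ncard hZ2 p
    have hpZ : p ∈ Nb G W c := ⟨hpW, hpp.adj.symm⟩
    have hZe : Nb G W c = {p, z} := by
      symm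
      refine Set.eq_of_subset_of_ncard_le ?_ ?_ (Set.toFinite _)
      · rintro x (h1 | h1)
        · rw [h1]
          exact hpZ
        · rw [Set.mem_singleton_iff] at h1
          rw [h1]
          exact hz
      · rw [h6, Set.ncard_pair hzp.symm]
    have hzw : G.Adj z w := hcomp z hz.1 hz.2
    have hpw : G.Adj p w := hcomp p hpW hpp.adj.symm
    -- every vertex is adjacent to `w` or `z`
    have hcov : ∀ x ∈ S, G.Adj w x ∨ G.Adj z x := by
      intro x hx
      by_cases hxW : x ∈ W
      · rcases hW x hxW with h1 | h1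
        · exact Or.inl (hcomp x hxW h1).symm
        · rw [h1]
          exact Or.inr hzw
      · obtain ⟨y, hy, hxy⟩ := h.w_pos hx
        rcases hW y hy with h1 | h1
        · have h2 : y ∈ Nb G W c := ⟨hy, h1⟩
          rw [hZe] at h2
          rcases h2 with h2 | h2
          · subst h2
            have h3 := hpp.uniq x hx hxW hxy.symm
            rw [h3]
            exact Or.inr hz.2.symm
          · rw [Set.mem_singleton_iff] at h2
            subst h2
            exact Or.inr hxy.symm
        · subst h1
          exact Or.inl hxy.symm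
    have e1 : (Sᶜ ∪ Nb G S w)ᶜ = Nb G S z := by
      ext x
      constructor
      · intro hx
        have h1 := mem_of_notMem_union hx
        exact ⟨h1.1, (hcov x h1.1).resolve_left fun h' => h1.2 ⟨h1.1, h'⟩⟩
      · rintro ⟨hx, hzx⟩
        exact notMem_union hx fun h' => h.tf w z x hzw.symm hzx h'.2
    have e2 : (Sᶜ ∪ Nb G S z)ᶜ = Nb G S w := by
      ext x
      constructor
      · intro hx
        have h1 := mem_of_notMem_union hx
        exact ⟨h1.1, (hcov x h1.1).resolve_right fun h' => h1.2 ⟨h1.1, h'⟩⟩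
      · rintro ⟨hx, hwx⟩
        exact notMem_union hx fun h' => h.tf z w x hzw hwx h'.2
    have hind : ∀ v, ∀ x ∈ Nb G S v, ∀ y ∈ Nb G S v, ¬ G.Adj x y := by
      intro v x hx y hy hxy
      exact h.tf v x y hx.2 hxy hy.2
    have f1 : cc G (Sᶜ ∪ Nb G S w) = (Nb G S z).ncard := by
      rw [cc_indep, e1]
      intro x hx y hy
      have hx' : x ∈ (Sᶜ ∪ Nb G S w)ᶜ := hx
      have hy' : y ∈ (Sᶜ ∪ Nb G S w)ᶜ := hy
      rw [e1] at hx' hy'
      exact hind z x hx' y hy'
    have f2 : cc G (Sᶜ ∪ Nb G S z) = (Nb G S w).ncard := by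
      rw [cc_indep, e2]
      intro x hx y hy
      have hx' : x ∈ (Sᶜ ∪ Nb G S z)ᶜ := hx
      have hy' : y ∈ (Sᶜ ∪ Nb G S z)ᶜ := hy
      rw [e2] at hx' hy'
      exact hind w x hx' y hy'
    have g1 := h.acc.unm _ (h.nb_cut (h.acc.WS hw))
    have g2 := h.acc.unm _ (h.nb_cut (h.acc.WS hz.1))
    have k1 : (Nb G S w \ W).ncard + 2 = (Nb G S w).ncard := by
      have h7 : Nb G S w ∩ W = {p, z} := by
        rw [← hZe]
        ext x
        constructor
        · rintro ⟨h8, h9⟩
          refine ⟨h9, (hW x h9).resolve_right ?_⟩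
          intro h10
          rw [h10] at h8
          exact h8.2.ne rfl
        · rintro ⟨h8, h9⟩
          exact ⟨⟨h.acc.WS h8, (hcomp x h8 h9).symm⟩, h8⟩
      have h8 := Set.ncard_inter_add_ncard_sdiff_eq_ncard (Nb G S w) W (Set.toFinite _)
      rw [h7, Set.ncard_pair hzp.symm] at h8
      omega
    have k2 : (Nb G S z \ W).ncard + 1 = (Nb G S z).ncard := by
      have h7 : Nb G S z ∩ W = {w} := by
        rw [← hNz z hz.1 hz.2]
        ext x
        constructor
        · rintro ⟨h8, h9⟩
          exact ⟨h9, h8.2⟩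
        · rintro ⟨h8, h9⟩
          exact ⟨⟨h.acc.WS h8, h9⟩, h8⟩
      have h8 := Set.ncard_inter_add_ncard_sdiff_eq_ncard (Nb G S z) W (Set.toFinite _)
      rw [h7, Set.ncard_singleton] at h8
      omega
    omega
  · -- a component outside `W`
    have haT : a ∉ Sᶜ ∪ insert c {w} := by
      refine notMem_union hp.ha ?_
      rintro (h1 | h1)
      · exact hca h1.symm
      · rw [Set.mem_singleton_iff] at h1
        rw [h1] at haW
        exact haW hw
    obtain ⟨D, hD, hKD⟩ := h.other hRW hcW hX (cl_mem_comps (G := G) haT)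
    have haD : a ∉ D := fun h' => hKD (comps_eq (cl_mem_comps haT) hD (self_mem G _ a) h')
    have hDW : ∀ x ∈ D, x ∉ W := by
      intro x hx hxW
      have h1 := comp_notMem_X hD hx
      rcases hW x hxW with h2 | h2
      · refine haD (comp_step hD hx h2.symm hp.ha ?_)
        exact fun h' => haT (Or.inr h')
      · exact h1 (Or.inr h2)
    have hDw : ∀ x ∈ D, G.Adj x w := by
      intro x hx
      obtain ⟨y, hy, hxy⟩ := h.w_pos (comp_mem_S hD hx)
      rcases comp_or hD hx hxy (h.acc.WS hy) with h1 | h1 | h1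
      · exact absurd hy (hDW y h1)
      · rw [h1] at hy
        exact absurd hy hcW
      · rw [Set.mem_singleton_iff] at h1
        rwa [h1] at hxy
    obtain ⟨b, hb⟩ := comps_nonempty hD
    have hbn : ∀ y ∈ S, G.Adj b y → y = c ∨ y = w := by
      intro y hy hby
      rcases comp_or hD hb hby hy with h1 | h1
      · exact absurd (hDw b hb) (h.tf b y w hby (hDw y h1))
      · exact h1
    have hbp : Pend G S W b c := by
      obtain ⟨y, hy, hyW, hby⟩ := h.u_pos (comp_mem_S hD hb)
      have hyc : y = c := by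
        rcases hbn y hy hby with h1 | h1
        · exact h1
        · rw [h1] at hyW
          exact absurd hw hyW
      refine ⟨comp_mem_S hD hb, hc, hcW, hyc ▸ hby, ?_⟩
      intro y' hy' hyW' hby'
      rcases hbn y' hy' hby' with h1 | h1
      · exact h1
      · rw [h1] at hyW'
        exact absurd hw hyW'
    have h5 := h.red_out ih hbp (hDW b hb)
    have h6 : Nb G W b = {w} := by
      ext y
      constructor
      · rintro ⟨hy, hby⟩
        rcases hbn y (h.acc.WS hy) hby with h1 | h1
        · rw [h1] at hy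
          exact absurd hy hcW
        · exact h1
      · intro h1
        rw [Set.mem_singleton_iff] at h1
        rw [h1]
        exact ⟨hw, hDw b hb⟩
    rw [h6, hWw] at h5
    omega

end Ctx

end Pool.Agent.H280.TF
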