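import Pool.Agent.H280.TFMain

/-!
# Accessible triangle-free pairs without a separating vertex: the second case
-/

set_option autoImplicit false
set_option linter.unusedSectionVars false

namespace Pool.Agent.H280.TF

open H629.AccG

variable {V : Type*} {G : SimpleGraph V} {S W X Y R T T' P : Set V} {x y z u v w t a c p q : V}
  {K D : Set V}

namespace Ctx

variable [Finite V]

/-- the data of the second case: `a` is a pendant vertex in `W`, and `W` consists of `a`, its
neighbours in `W` and one more vertex `w` -/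
structure C2 (G : SimpleGraph V) (S W : Set V) (a t w : V) : Prop where
  ctx : Ctx G S W
  hU : ∀ b s, b ∉ W → ¬ Pend G S W b s
  hp : Pend G S W a t
  haW : a ∈ W
  hw : w ∈ W
  hwa : ¬ G.Adj a w
  hne : w ≠ a
  hW : ∀ x ∈ W, G.Adj a x ∨ x = a ∨ x = w
  card : ∀ p s, p ∈ W → Pend G S W p s → (W \ Nb G W p).ncard = 2

/-- every vertex outside `W` has two neighbours outside `W` -/
theorem C2.two (h : C2 G S W a t w) (hu : u ∈ S) (huW : u ∉ W) (s : V) :
    ∃ y ∈ S, y ∉ W ∧ G.Adj u y ∧ y ≠ s := by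
  by_contra hcon
  push Not at hcon
  obtain ⟨y, hy, hyW, ha⟩ := h.ctx.u_pos hu
  have h1 := hcon y hy hyW ha
  subst h1
  exact h.hU u y huW ⟨hu, hy, hyW, ha, hcon⟩

theorem C2.hZ (h : C2 G S W a t w) (hz : G.Adj a z) (hx : x ∈ W) (hzx : G.Adj z x) :
    x = a ∨ x = w :=
  (h.hW x hx).resolve_left (h.ctx.tf a z x hz hzx)

/-- all components have a vertex outside `W` -/
theorem C2.type (h : C2 G S W a t w) (hc : c ∈ S) (hcW : c ∉ W)
    (hX : PCut G S W (insert c {a})) (hK : K ∈ comps G (Sᶜ ∪ insert c {a})) :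
    ∃ u ∈ K, u ∉ W := by
  have hR : ({a} : Set V) ⊆ W := by
    intro x hx
    rw [Set.mem_singleton_iff] at hx
    rw [hx]
    exact h.haW
  rcases h.ctx.elem_type hR hc hcW hX hK with h1 | ⟨p, hpK, hpW, hp, hpn⟩
  · exact h1
  exfalso
  have hpa : p ≠ a := by
    rintro rfl
    exact comp_notMem_X hK hpK (Or.inr rfl)
  obtain ⟨y, hy, hwy⟩ := h.ctx.w_pos (h.ctx.acc.WS h.hw)
  have hpw : ¬ G.Adj p w := by
    intro h1
    rcases hpn w (h.ctx.acc.WS h.hw) h1 with h2 | h2
    · exact hcW (h2 ▸ h.hw)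
    · exact h.hne h2
  rcases h.hW p hpW with h1 | h1 | h1
  · -- `p` is a neighbour of `a`
    have h2 : Nb G W p = {a} := by
      ext x
      constructor
      · rintro ⟨hx, hpx⟩
        rcases hpn x (h.ctx.acc.WS hx) hpx with h3 | h3
        · exact absurd (h3 ▸ hx) hcW
        · exact h3
      · intro hx
        rw [Set.mem_singleton_iff] at hx
        rw [hx]
        exact ⟨h.haW, h1.symm⟩
    have h3 := h.card p c hpW hp
    rw [h2] at h3
    have hpw' : p ≠ w := by
      rintro rfl
      exact h.hwa h1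
    have h4 : ({p, w} : Set V) = W \ {a} := by
      refine Set.eq_of_subset_of_ncard_le ?_ ?_ (Set.toFinite _)
      · rintro x (hx | hx)
        · rw [hx]
          exact ⟨hpW, hpa⟩
        · rw [Set.mem_singleton_iff] at hx
          rw [hx]
          exact ⟨h.hw, h.hne⟩
      · rw [h3, Set.ncard_pair hpw']
    have hya : y ≠ a := by
      rintro rfl
      exact h.hwa hwy.symm
    have h5 : y ∈ ({p, w} : Set V) := by
      rw [h4]
      exact ⟨hy, hya⟩
    rcases h5 with h5 | h5
    · rw [h5] at hwy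
      exact hpw hwy.symm
    · rw [Set.mem_singleton_iff] at h5
      exact hwy.ne h5.symm
  · exact hpa h1
  · rw [h1] at hpn
    rcases hpn y (h.ctx.acc.WS hy) hwy with h2 | h2
    · exact hcW (h2 ▸ hy)
    · rw [Set.mem_singleton_iff] at h2
      rw [h2] at hwy
      exact h.hwa hwy.symm

theorem C2.aux (h : C2 G S W a t w) (n : ℕ) : ∀ (c : V) (D : Set V), D.ncard = n → c ∈ S →
    c ∉ W → PCut G S W (insert c {a}) → D ∈ comps G (Sᶜ ∪ insert c {a}) → w ∉ D → False := by
  induction n using Nat.strong_induction_on with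
  | _ n ih =>
    intro c D hn hc hcW hX hD hwD
    have hR : ({a} : Set V) ⊆ W := by
      intro x hx
      rw [Set.mem_singleton_iff] at hx
      rw [hx]
      exact h.haW
    have hct : c ≠ t := by
      rintro rfl
      obtain ⟨K, hK, hKW⟩ := h.ctx.pend_type h.hp h.haW hR hX
      obtain ⟨u, hu, huW⟩ := h.type hc hcW hX hK
      exact huW (hKW u hu)
    have hcc := h.ctx.acc.elem_two hR hcW hX
    obtain ⟨K, hK, hDK⟩ := h.ctx.other hR hcW hX hD
    have hwS := h.ctx.acc.WS h.hw
    have hwc : w ≠ c := fun h' => hcW (h' ▸ h.hw)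
    have hwT : w ∉ insert c ({a} : Set V) := by
      rintro (h1 | h1)
      · exact hwc h1
      · exact h.hne h1
    have hwK : w ∈ K :=
      (mem_of_cc_two hcc.le hK hD hDK.symm (notMem_union hwS hwT)).resolve_right hwD
    have hallz : ∀ z ∈ D, z ∈ W → G.Adj z c := by
      intro z hz hzW
      have hza : z ≠ a := by
        rintro rfl
        exact comp_notMem_X hD hz (Or.inr rfl)
      have hzw : z ≠ w := by
        rintro rfl
        exact hwD hz
      have haz : G.Adj a z := by
        rcases h.hW z hzW with h1 | h1 | h1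
        · exact h1
        · exact absurd h1 hza
        · exact absurd h1 hzw
      have hNb : Nb G W z = {a} := by
        ext x
        constructor
        · rintro ⟨hx, hzx⟩
          rcases h.hZ haz hx hzx with h1 | h1
          · exact h1
          · rw [h1] at hzx
            exact absurd (comp_step hD hz hzx hwS hwT) hwD
        · intro hx
          rw [Set.mem_singleton_iff] at hx
          rw [hx]
          exact ⟨h.haW, haz.symm⟩
      obtain ⟨c', hc', hc'W, hzc', hX'⟩ := h.ctx.elem_at (h.ctx.acc.WS hzW)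
      rw [hNb] at hX'
      by_cases hcc' : c' = c
      · rw [← hcc']
        exact hzc'
      · exfalso
        have hc'D : c' ∈ D := by
          refine comp_step hD hz hzc' hc' ?_
          rintro (h1 | h1)
          · exact hcc' h1
          · exact hc'W (hR h1)
        have hwT' : w ∉ Sᶜ ∪ insert c' ({a} : Set V) := by
          refine notMem_union hwS ?_
          rintro (h1 | h1)
          · exact hc'W (h1 ▸ h.hw)
          · exact h.hne h1
        obtain ⟨D', hD', hKD'⟩ := h.ctx.other hR hc'W hX' (cl_mem_comps (G := G) hwT')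
        have hwD' : w ∉ D' := fun h' =>
          hKD' (comps_eq (cl_mem_comps hwT') hD' (self_mem G _ w) h')
        have hlt := nested hcc.le hK hD hDK.symm hwK hc'D hc (fun h' => hcW (hR h'))
          (h.ctx.acc.elem_adj hR hcW hX hK) hD' hwD'
        exact ih _ (hn ▸ hlt) c' D' rfl hc' hc'W hX' hD' hwD'
    have honly : ∀ v ∈ D, v ∉ W → G.Adj c v → v = t := by
      intro v hv hvW hcv
      obtain ⟨y, hy, hvy⟩ := h.ctx.w_pos (comp_mem_S hD hv)
      rcases comp_or hD hv hvy (h.ctx.acc.WS hy) with h1 | h1 | h1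
      · exact absurd (hallz y h1 hy).symm (h.ctx.tf c v y hcv hvy)
      · exact absurd (h1 ▸ hy) hcW
      · rw [Set.mem_singleton_iff] at h1
        rw [h1] at hvy
        exact h.hp.uniq v (comp_mem_S hD hv) hvW hvy.symm
    obtain ⟨u, hu, huW⟩ := h.type hc hcW hX hD
    obtain ⟨v, hv, hvW, hcv⟩ := h.ctx.adjU hR hc hcW hD hu huW
    have hvt := honly v hv hvW hcv
    subst hvt
    obtain ⟨t', ht', ht'W, htt', ht'c⟩ := h.two (comp_mem_S hD hv) hvW c
    have ht'D : t' ∈ D := by
      refine comp_step hD hv htt' ht' ?_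
      rintro (h1 | h1)
      · exact ht'c h1
      · exact ht'W (hR h1)
    have h1 := h.ctx.pend_conn h.hp h.haW ht' ht'W htt'.ne.symm hc hcW hct
    have h2 : cl G (Sᶜ ∪ insert v W) t' ⊆ {x | x ∈ D ∧ x ∉ W ∧ x ≠ v} := by
      refine cl_sub ?_ ⟨ht'D, ht'W, htt'.ne.symm⟩
      rintro x ⟨hx, hxW, hxv⟩ y hxy hy
      have hy' := mem_of_notMem_union hy
      have hyW : y ∉ W := fun h' => hy'.2 (Or.inr h')
      have hyv : y ≠ v := fun h' => hy'.2 (Or.inl h')
      refine ⟨?_, hyW, hyv⟩
      refine comp_step hD hx hxy hy'.1 ?_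
      rintro (h3 | h3)
      · rw [h3] at hxy
        exact hxv (honly x hx hxW hxy.symm)
      · exact hyW (hR h3)
    exact comp_notMem_X hD (h2 h1).1 (Or.inl rfl)

/-- no elementary cut set with trace `{a}` on `W` -/
theorem C2.no_a (h : C2 G S W a t w) (hc : c ∈ S) (hcW : c ∉ W)
    (hX : PCut G S W (insert c {a})) : False := by
  have hR : ({a} : Set V) ⊆ W := by
    intro x hx
    rw [Set.mem_singleton_iff] at hx
    rw [hx]
    exact h.haW
  have hwT : w ∉ Sᶜ ∪ insert c ({a} : Set V) := by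
    refine notMem_union (h.ctx.acc.WS h.hw) ?_
    rintro (h1 | h1)
    · exact hcW (h1 ▸ h.hw)
    · exact h.hne h1
  obtain ⟨D, hD, hKD⟩ := h.ctx.other hR hcW hX (cl_mem_comps (G := G) hwT)
  have hwD : w ∉ D := fun h' => hKD (comps_eq (cl_mem_comps hwT) hD (self_mem G _ w) h')
  exact h.aux _ c D rfl hc hcW hX hD hwD

theorem C2.adj_w (h : C2 G S W a t w) (hv : v ∈ S) (hva : G.Adj v a)
    (hn : ∀ x ∈ W, G.Adj v x → x = a ∨ x = w) : G.Adj v w := by
  by_contra hvw
  obtain ⟨c, hc, hcW, -, hX⟩ := h.ctx.elem_at hv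
  have hNb : Nb G W v = {a} := by
    ext x
    constructor
    · rintro ⟨hx, hvx⟩
      rcases hn x hx hvx with h1 | h1
      · exact h1
      · rw [h1] at hvx
        exact absurd hvx hvw
    · intro hx
      rw [Set.mem_singleton_iff] at hx
      rw [hx]
      exact ⟨h.haW, hva⟩
  rw [hNb] at hX
  exact h.no_a hc hcW hX

theorem C2.zw (h : C2 G S W a t w) (hz : z ∈ W) (haz : G.Adj a z) : G.Adj z w :=
  h.adj_w (h.ctx.acc.WS hz) haz.symm fun _ hx hzx => h.hZ haz hx hzx

theorem C2.tw (h : C2 G S W a t w) : G.Adj t w := by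
  refine h.adj_w h.hp.ht h.hp.adj.symm ?_
  intro x hx htx
  refine (h.hW x hx).resolve_left ?_
  exact h.ctx.tf a t x h.hp.adj htx

/-- no elementary cut set with trace `{w}` on `W` -/
theorem C2.no_w (h : C2 G S W a t w) (hc : c ∈ S) (hcW : c ∉ W)
    (hX : PCut G S W (insert c {w})) : False := by
  have hR : ({w} : Set V) ⊆ W := by
    intro x hx
    rw [Set.mem_singleton_iff] at hx
    rw [hx]
    exact h.hw
  obtain ⟨z0, hz0, haz0⟩ := h.ctx.w_pos h.hp.ha
  have hz0w : z0 ≠ w := by
    rintro rfl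
    exact h.hwa haz0
  by_cases hct : c = t
  · subst hct
    obtain ⟨K, hK, hKW⟩ := h.ctx.pend_type h.hp h.haW hR hX
    rcases h.ctx.elem_type hR hc hcW hX hK with ⟨u, hu, huW⟩ | ⟨p, hpK, hpW, hp, hpn⟩
    · exact huW (hKW u hu)
    · have hpa := h.ctx.pend_unique hp hpW h.hp h.haW
      rw [hpa] at hpn
      rcases hpn z0 (h.ctx.acc.WS hz0) haz0 with h1 | h1
      · exact hcW (h1 ▸ hz0)
      · exact hz0w h1
  · have haT : a ∉ Sᶜ ∪ insert c ({w} : Set V) := by
      refine notMem_union h.hp.ha ?_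
      rintro (h1 | h1)
      · exact hcW (h1 ▸ h.haW)
      · exact h.hne h1.symm
    have hK : cl G (Sᶜ ∪ insert c {w}) a ∈ comps G (Sᶜ ∪ insert c {w}) := cl_mem_comps haT
    obtain ⟨D, hD, hKD⟩ := h.ctx.other hR hcW hX hK
    have hDW : ∀ x ∈ D, x ∉ W := by
      intro x hx hxW
      have hxT := comp_notMem_X hD hx
      rcases h.hW x hxW with h1 | h1 | h1
      · exact hKD (comps_eq hK hD (comp_step hK (self_mem G _ a) h1 (comp_mem_S hD hx) hxT) hx)
      · rw [h1] at hx
        exact hKD (comps_eq hK hD (self_mem G _ a) hx)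
      · exact hxT (Or.inr h1)
    have hDw : ∀ x ∈ D, G.Adj x w := by
      intro x hx
      obtain ⟨y, hy, hxy⟩ := h.ctx.w_pos (comp_mem_S hD hx)
      rcases comp_or hD hx hxy (h.ctx.acc.WS hy) with h1 | h1 | h1
      · exact absurd hy (hDW y h1)
      · exact absurd (h1 ▸ hy) hcW
      · rw [Set.mem_singleton_iff] at h1
        rwa [h1] at hxy
    obtain ⟨d, hd⟩ := comps_nonempty hD
    obtain ⟨y, hy, hyW, hdy, hyc⟩ := h.two (comp_mem_S hD hd) (hDW d hd) c
    have hyD : y ∈ D := by
      refine comp_step hD hd hdy hy ?_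
      rintro (h1 | h1)
      · exact hyc h1
      · exact hyW (hR h1)
    exact h.ctx.tf d y w hdy (hDw y hyD) (hDw d hd)

/-- the second case is impossible -/
theorem C2.false (h : C2 G S W a t w) : False := by
  -- `w` has a neighbour `y` outside `W` different from `t`
  have h1 : ∃ y ∈ S, y ∉ W ∧ G.Adj w y ∧ y ≠ t := by
    by_contra hcon
    push Not at hcon
    have h2 : Pend G S W w t :=
      ⟨h.ctx.acc.WS h.hw, h.hp.ht, h.hp.tW, h.tw.symm, hcon⟩
    exact h.hne (h.ctx.pend_unique h2 h.hw h.hp h.haW)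
  obtain ⟨y, hy, hyW, hwy, hyt⟩ := h1
  obtain ⟨c, hc, hcW, -, hX⟩ := h.ctx.elem_at hy
  have hNb : Nb G W y = {w} := by
    ext x
    constructor
    · rintro ⟨hx, hyx⟩
      rcases h.hW x hx with h2 | h2 | h2
      · exact absurd (h.zw hx h2).symm (h.ctx.tf w y x hwy hyx)
      · rw [h2] at hyx
        exact absurd (h.hp.uniq y hy hyW hyx.symm) hyt
      · exact h2
    · intro hx
      rw [Set.mem_singleton_iff] at hx
      rw [hx]
      exact ⟨h.hw, hwy.symm⟩
  rw [hNb] at hX
  exact h.no_w hc hcW hX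

/-- an accessible triangle-free pair without a separating vertex has `|W| = 2` -/
theorem card_W (h : Ctx G S W) (ih : IH G S) : W.ncard = 2 := by
  by_cases hU : ∃ b s, b ∉ W ∧ Pend G S W b s
  · obtain ⟨b, s, hb, hp⟩ := hU
    exact h.caseI ih hp hb
  · exfalso
    have hU' : ∀ b s, b ∉ W → ¬ Pend G S W b s := fun b s h1 h2 => hU ⟨b, s, h1, h2⟩
    obtain ⟨a, t, hp⟩ := h.exists_pend
    have haW : a ∈ W := by
      by_contra haW
      exact hU' a t haW hp
    have hcard := h.red_eq ih hp hU'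
    have haN : a ∈ W \ Nb G W a := ⟨haW, fun h' => h'.2.ne rfl⟩
    obtain ⟨w, hw, hwa⟩ := Set.exists_ne_of_one_lt_ncard (s := W \ Nb G W a) (by omega) a
    have hWe : ({a, w} : Set V) = W \ Nb G W a := by
      refine Set.eq_of_subset_of_ncard_le ?_ ?_ (Set.toFinite _)
      · rintro x (hx | hx)
        · rw [hx]
          exact haN
        · rw [Set.mem_singleton_iff] at hx
          rw [hx]
          exact hw
      · rw [hcard, Set.ncard_pair hwa.symm]
    refine C2.false (a := a) (t := t) (w := w)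
      ⟨h, hU', hp, haW, hw.1, fun h' => hw.2 ⟨hw.1, h'⟩, hwa, ?_, ?_⟩
    · intro x hx
      by_cases hax : G.Adj a x
      · exact Or.inl hax
      · right
        have : x ∈ ({a, w} : Set V) := by
          rw [hWe]
          exact ⟨hx, fun h' => hax h'.2⟩
        exact this
    · intro p s _ hp'
      exact h.red_eq ih hp' hU'

/-- the colouring -/
theorem bip (h : Ctx G S W) (hW : W.ncard = 2) :
    ∃ A : Set V, ∀ x ∈ S, ∀ y ∈ S, G.Adj x y → (x ∈ A ↔ y ∉ A) := by
  rw [Set.ncard_eq_two] at hW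
  obtain ⟨p, q, hpq, hW⟩ := hW
  have hpW : p ∈ W := by
    rw [hW]
    exact Or.inl rfl
  have hcov : ∀ x ∈ S, G.Adj p x ∨ G.Adj q x := by
    intro x hx
    obtain ⟨w, hw, hxw⟩ := h.w_pos hx
    rw [hW] at hw
    rcases hw with h1 | h1
    · rw [h1] at hxw
      exact Or.inl hxw.symm
    · rw [Set.mem_singleton_iff] at h1
      rw [h1] at hxw
      exact Or.inr hxw.symm
  refine ⟨{x | G.Adj p x}, ?_⟩
  intro x hx y hy hxy
  constructor
  · intro h1 h2
    exact h.tf p x y h1 hxy h2
  · intro h1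
    by_contra h2
    have h3 := (hcov x hx).resolve_left h2
    have h4 := (hcov y hy).resolve_left h1
    exact h.tf q x y h3 hxy h4

end Ctx

end Pool.Agent.H280.TF
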