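import Pool.Agent.H280.TFRed

/-!
# Existence of a pendant vertex (MP_e66ac9_al, helper280)
-/

set_option autoImplicit false
set_option linter.unusedSectionVars false

namespace Pool.Agent.H280.TF

open H629.AccG

variable {V : Type*} {G : SimpleGraph V} {S W X Y R T T' P : Set V} {x y z u v w t a c p q : V}
  {K D : Set V}

namespace Ctx

variable [Finite V]

theorem elem_sep (h : Ctx G S W) (hW : ∀ p s, p ∈ W → ¬ Pend G S W p s) (hR : R ⊆ W)
    (hc : c ∈ S) (hcW : c ∉ W) (hX : PCut G S W (insert c R)) :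
    ∃ K1 ∈ comps G (Sᶜ ∪ insert c R), ∃ K2 ∈ comps G (Sᶜ ∪ insert c R), K1 ≠ K2 ∧
      (∃ u ∈ K1, u ∉ W) ∧ ∃ u ∈ K2, u ∉ W := by
  have h1 := h.acc.elem_two hR hcW hX
  have h2 : 1 < (comps G (Sᶜ ∪ insert c R)).ncard := by
    have : (comps G (Sᶜ ∪ insert c R)).ncard = 2 := h1
    omega
  rw [Set.one_lt_ncard_iff (Set.toFinite _)] at h2
  obtain ⟨K1, K2, hK1, hK2, hne⟩ := h2
  have key : ∀ K ∈ comps G (Sᶜ ∪ insert c R), ∃ u ∈ K, u ∉ W := by
    intro K hK
    rcases h.elem_type hR hc hcW hX hK with h3 | ⟨p, -, hp, hp', -⟩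
    · exact h3
    · exact absurd hp' (hW p c hp)
  exact ⟨K1, hK1, K2, hK2, hne, key K1 hK1, key K2 hK2⟩

/-- a component of the vertices outside `W` without `t` is adjacent to `t` -/
theorem adjP (h : Ctx G S W) (ht : t ∈ S) (htW : t ∉ W)
    (hP : P ∈ comps G (Sᶜ ∪ insert t W)) : ∃ p ∈ P, G.Adj t p := by
  obtain ⟨x, hx⟩ := comps_nonempty hP
  obtain ⟨v, hv, -, ha⟩ := h.adjU (subset_refl W) ht htW hP hx
    (fun h' => comp_notMem_X hP hx (Or.inr h'))
  exact ⟨v, hv, ha⟩

theorem pend_aux (h : Ctx G S W) (hW : ∀ p s, p ∈ W → ¬ Pend G S W p s) (n : ℕ) :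
    ∀ (t : V) (P : Set V), P.ncard = n → t ∈ S → t ∉ W → P ∈ comps G (Sᶜ ∪ insert t W) →
      ∃ a s, Pend G S W a s := by
  induction n using Nat.strong_induction_on with
  | _ n ih =>
    intro t P hn ht htW hP
    have hPS : ∀ x ∈ P, x ∈ S ∧ x ∉ W ∧ x ≠ t := by
      intro x hx
      have h1 := comp_notMem_X hP hx
      exact ⟨comp_mem_S hP hx, fun h' => h1 (Or.inr h'), fun h' => h1 (Or.inl h')⟩
    have htP : t ∉ P := fun h' => (hPS t h').2.2 rfl
    by_cases hX : ∃ x ∈ P, ¬ G.Adj t x
    · obtain ⟨x0, hx0, hx0t⟩ := hX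
      let Y : Set V := {y | y ∈ P ∧ G.Adj t y ∧ ∃ x ∈ P, ¬ G.Adj t x ∧ G.Adj y x}
      have hYne : Y.Nonempty := by
        by_contra hY
        rw [Set.not_nonempty_iff_eq_empty] at hY
        obtain ⟨p0, hp0, hp0t⟩ := h.adjP ht htW hP
        have h1 : cl G (Sᶜ ∪ insert t W) x0 ⊆ {x | x ∈ P ∧ ¬ G.Adj t x} := by
          refine cl_sub ?_ ⟨hx0, hx0t⟩
          rintro u ⟨hu, hut⟩ v ha hv
          have hvP := comps_closed hP hu ha hv
          refine ⟨hvP, fun h' => ?_⟩
          have : v ∈ Y := ⟨hvP, h', u, hu, hut, ha.symm⟩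
          rw [hY] at this
          exact this
        rw [← (comps_eq_cl hP hx0).2] at h1
        exact (h1 hp0).2 hp0t
      let W' : Set V := {w | w ∈ W ∧ ∃ u ∈ S, u ∉ W ∧ G.Adj w u ∧ u ∉ Y}
      have hYW : ∀ y ∈ Y, y ∉ W := fun y hy => (hPS y hy.1).2.1
      have hcut : PCut G S W (Y ∪ W') := by
        refine PCut.mk' ?_ ?_ ?_
        · rintro y (h1 | h1)
          · exact (hPS y h1.1).1
          · exact h.acc.WS h1.1
        · rintro w (h1 | h1) hwW
          · exact absurd hwW (hYW w h1)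
          · obtain ⟨-, u, hu, huW, ha, huY⟩ := h1
            refine ⟨u, hu, ?_, ha⟩
            rintro (h2 | h2)
            · exact huY h2
            · exact huW h2.1
        · intro u hu huW
          have huY : u ∈ Y := hu.resolve_right fun h' => huW h'.1
          obtain ⟨huP, hut, x, hx, hxt, hux⟩ := huY
          have hxT : x ∉ Sᶜ ∪ (Y ∪ W') := by
            refine notMem_union (hPS x hx).1 ?_
            rintro (h2 | h2)
            · exact hxt h2.2.1
            · exact (hPS x hx).2.1 h2.1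
          have htT : t ∉ Sᶜ ∪ (Y ∪ W') := by
            refine notMem_union ht ?_
            rintro (h2 | h2)
            · exact htP h2.1
            · exact htW h2.1
          refine two_le_deg (cl_mem_comps hxT) (cl_mem_comps htT) ⟨x, self_mem G _ x, hux⟩
            ⟨t, self_mem G _ t, hut.symm⟩ ?_
          intro he
          have h3 : cl G (Sᶜ ∪ (Y ∪ W')) x ⊆ {x | x ∈ P ∧ ¬ G.Adj t x} := by
            refine cl_sub ?_ ⟨hx, hxt⟩
            rintro u' ⟨hu', hut'⟩ v ha hv
            have hv' := mem_of_notMem_union hv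
            have hvW : v ∉ W := by
              intro hvW
              apply hv'.2
              right
              refine ⟨hvW, u', (hPS u' hu').1, (hPS u' hu').2.1, ha.symm, ?_⟩
              intro h4
              exact hut' h4.2.1
            have hvt : v ≠ t := by
              rintro rfl
              exact hut' ha.symm
            have hvP : v ∈ P := by
              refine comp_step hP hu' ha hv'.1 ?_
              rintro (h4 | h4)
              · exact hvt h4
              · exact hvW h4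
            refine ⟨hvP, fun h4 => hv'.2 (Or.inl ⟨hvP, h4, u', hu', hut', ha.symm⟩)⟩
          have h4 : t ∈ cl G (Sᶜ ∪ (Y ∪ W')) x := by
            rw [he]
            exact self_mem G _ t
          exact htP (h3 h4).1
      obtain ⟨y0, hy0⟩ := hYne
      obtain ⟨y1, hy1, hy1W, hel⟩ := h.acc.elem hcut ⟨y0, Or.inl hy0, hYW y0 hy0⟩
      have hy1Y : y1 ∈ Y := hy1.resolve_right fun h' => hy1W h'.1
      have hy1S := (hPS y1 hy1Y.1).1
      have hRW : (Y ∪ W') ∩ W ⊆ W := fun x hx => hx.2
      obtain ⟨K1, hK1, K2, hK2, hne, ⟨u1, hu1, hu1W⟩, u2, hu2, hu2W⟩ :=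
        h.elem_sep hW hRW hy1S hy1W hel
      -- a component of the vertices outside `W` and different from `y1`, without `t`
      have hnT : ∀ K ∈ comps G (Sᶜ ∪ insert y1 ((Y ∪ W') ∩ W)), ∀ u ∈ K, u ∉ W →
          u ∉ Sᶜ ∪ insert y1 W := by
        intro K hK u hu huW
        refine notMem_union (comp_mem_S hK hu) ?_
        rintro (h2 | h2)
        · exact comp_notMem_X hK hu (Or.inl h2)
        · exact huW h2
      have hsubK : ∀ K ∈ comps G (Sᶜ ∪ insert y1 ((Y ∪ W') ∩ W)), ∀ u ∈ K,
          cl G (Sᶜ ∪ insert y1 W) u ⊆ K := by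
        intro K hK u hu
        exact (cl_anti (Set.union_subset_union_right _
          (Set.insert_subset_insert hRW))).trans (comps_eq_cl hK hu).2.symm.subset
      have hex : ∃ u, u ∉ Sᶜ ∪ insert y1 W ∧ t ∉ cl G (Sᶜ ∪ insert y1 W) u := by
        by_cases h2 : t ∈ cl G (Sᶜ ∪ insert y1 W) u1
        · refine ⟨u2, hnT K2 hK2 u2 hu2 hu2W, fun h3 => ?_⟩
          exact hne (comps_eq hK1 hK2 (hsubK K1 hK1 u1 hu1 h2) (hsubK K2 hK2 u2 hu2 h3))
        · exact ⟨u1, hnT K1 hK1 u1 hu1 hu1W, h2⟩
      obtain ⟨u, huT, htu⟩ := hex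
      set P' := cl G (Sᶜ ∪ insert y1 W) u with hP'
      have hP'c : P' ∈ comps G (Sᶜ ∪ insert y1 W) := cl_mem_comps huT
      have hsub : P' ⊆ P := by
        intro q hq
        by_contra hqP
        have hq1 := mem_of_notMem_union (comps_notMem hP'c hq)
        have hqt : q ≠ t := by
          rintro rfl
          exact htu hq
        have hqT : q ∉ Sᶜ ∪ insert t W := by
          refine notMem_union hq1.1 ?_
          rintro (h2 | h2)
          · exact hqt h2
          · exact hq1.2 (Or.inr h2)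
        have hQ : cl G (Sᶜ ∪ insert t W) q ∈ comps G (Sᶜ ∪ insert t W) := cl_mem_comps hqT
        have hQP : cl G (Sᶜ ∪ insert t W) q ≠ P := by
          intro h2
          exact hqP (by rw [← h2]; exact self_mem G _ q)
        have hQsub : cl G (Sᶜ ∪ insert t W) q ⊆ cl G (Sᶜ ∪ insert y1 W) q := by
          refine comps_connected hQ (self_mem G _ q) ?_
          intro y hy
          refine notMem_union (comp_mem_S hQ hy) ?_
          rintro (h2 | h2)
          · rw [h2] at hy
            exact hQP (comps_eq hQ hP hy hy1Y.1)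
          · exact comp_notMem_X hQ hy (Or.inr h2)
        obtain ⟨q', hq', ha'⟩ := h.adjP ht htW hQ
        apply htu
        have h3 := (comps_eq_cl hP'c hq).2
        rw [h3]
        refine cl_step (hQsub hq') ha'.symm (notMem_union ht ?_)
        rintro (h2 | h2)
        · exact htP (by rw [h2]; exact hy1Y.1)
        · exact htW h2
      have hlt : P'.ncard < n := by
        rw [← hn]
        refine Set.ncard_lt_ncard ⟨hsub, fun h' => ?_⟩ (Set.toFinite _)
        exact comp_notMem_X hP'c (h' hy1Y.1) (Or.inl rfl)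
      exact ih _ hlt y1 P' rfl hy1S hy1W hP'c
    · push Not at hX
      obtain ⟨x, hx⟩ := comps_nonempty hP
      refine ⟨x, t, (hPS x hx).1, ht, htW, (hX x hx).symm, ?_⟩
      intro y hy hyW ha
      rcases comp_or hP hx ha hy with h1 | h1 | h1
      · exact absurd (hX y h1) (h.tf t x y (hX x hx) ha)
      · exact h1
      · exact absurd h1 hyW

/-- there is a pendant vertex -/
theorem exists_pend (h : Ctx G S W) : ∃ a t, Pend G S W a t := by
  by_cases hW : ∃ p s, p ∈ W ∧ Pend G S W p s
  · obtain ⟨p, s, -, hp⟩ := hW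
    exact ⟨p, s, hp⟩
  · have hW' : ∀ p s, p ∈ W → ¬ Pend G S W p s := fun p s h1 h2 => hW ⟨p, s, h1, h2⟩
    have h0 : 0 < S.ncard := by
      have := h.three
      omega
    rw [Set.ncard_pos (Set.toFinite _)] at h0
    obtain ⟨v, hv⟩ := h0
    obtain ⟨c, hc, hcW, -, hX⟩ := h.elem_at hv
    obtain ⟨K1, hK1, K2, hK2, hne, ⟨u1, hu1, hu1W⟩, -⟩ :=
      h.elem_sep hW' (fun x hx => hx.1) hc hcW hX
    have h1 : u1 ∉ Sᶜ ∪ insert c W := by
      refine notMem_union (comp_mem_S hK1 hu1) ?_
      rintro (h2 | h2)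
      · exact comp_notMem_X hK1 hu1 (Or.inl h2)
      · exact hu1W h2
    exact h.pend_aux hW' _ c _ rfl hc hcW (cl_mem_comps h1)

end Ctx

end Pool.Agent.H280.TF
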