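import Pool.Agent.H280.TFCtx

/-!
# Removing the neighbours in `W` of a pendant vertex (MP_e66ac9_al, helper280)
-/

set_option autoImplicit false
set_option linter.unusedSectionVars false

namespace Pool.Agent.H280.TF

open H629.AccG

variable {V : Type*} {G : SimpleGraph V} {S W X Y R T T' : Set V} {x y z u v w t a c p q : V}
  {K D : Set V}

theorem compl_diff (S Z : Set V) : (S \ Z)ᶜ = Sᶜ ∪ Z := by
  ext x
  simp only [Set.mem_compl_iff, Set.mem_sdiff, Set.mem_union]
  tauto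

theorem compl_diff_union (S Z X : Set V) : (S \ Z)ᶜ ∪ X = Sᶜ ∪ (X ∪ Z) := by
  rw [compl_diff, Set.union_assoc, Set.union_comm Z X]

/-- the leaves of the pair: the vertices of `W` and the vertices of degree one -/
def Lf (G : SimpleGraph V) (S W : Set V) : Set V := {x | x ∈ S ∧ (x ∈ W ∨ (Nb G S x).ncard = 1)}

section

variable [Finite V]

/-- the neighbours of `a` left after removing its neighbours in `W` -/
theorem pend_nb (hp : Pend G S W a t) (hy : y ∉ (S \ Nb G W a)ᶜ)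
    (ha : G.Adj a y) : y = t := by
  have h1 : y ∈ S \ Nb G W a := by simpa using hy
  refine hp.uniq y h1.1 ?_ ha
  intro hyW
  exact h1.2 ⟨hyW, ha⟩

theorem pend_deg_le (hp : Pend G S W a t) :
    H629.AccG.deg G ((S \ Nb G W a)ᶜ ∪ X) a ≤ 1 := by
  unfold H629.AccG.deg
  rw [Set.ncard_le_one_iff (Set.toFinite _)]
  rintro K K' ⟨hK, y, hy, ha⟩ ⟨hK', y', hy', ha'⟩
  have h1 : y = t := pend_nb hp (fun h => comps_notMem hK hy (Or.inl h)) ha
  have h2 : y' = t := pend_nb hp (fun h => comps_notMem hK' hy' (Or.inl h)) ha'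
  subst h1
  rw [h2] at hy'
  exact comps_eq hK hK' hy hy'

theorem pend_deg_eq (hp : Pend G S W a t) (htX : t ∉ X) :
    H629.AccG.deg G ((S \ Nb G W a)ᶜ ∪ X) a = 1 := by
  refine le_antisymm (pend_deg_le hp) ?_
  have ht : t ∉ (S \ Nb G W a)ᶜ ∪ X :=
    notMem_union ⟨hp.ht, fun h => hp.tW h.1⟩ htX
  have h1 : 0 < H629.AccG.deg G ((S \ Nb G W a)ᶜ ∪ X) a := by
    unfold H629.AccG.deg
    rw [Set.ncard_pos (Set.toFinite _)]
    exact ⟨_, cl_mem_comps ht, t, self_mem G _ t, hp.adj⟩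
  exact h1

theorem pend_cc (hp : Pend G S W a t) (htX : t ∉ X) (haX : a ∈ X) (haZ : a ∈ S \ Nb G W a) :
    cc G ((S \ Nb G W a)ᶜ ∪ (X \ {a})) = cc G ((S \ Nb G W a)ᶜ ∪ X) := by
  have h1 := cc_erase' (G := G) haZ haX
  rw [pend_deg_eq hp htX] at h1
  omega

theorem pend_self (hp : Pend G S W a t) : a ∈ S \ Nb G W a := ⟨hp.ha, fun h => h.2.ne rfl⟩

theorem red_up (hX : PCut G (S \ Nb G W a) (W \ Nb G W a) X) (hp : Pend G S W a t)
    (haX : a ∉ X) (hWS : W ⊆ S) : PCut G S W (X ∪ Nb G W a) := by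
  have hZ : ∀ x ∈ X, x ∉ Nb G W a := fun x hx => (hX.sub hx).2
  refine ⟨?_, ?_, ?_⟩
  · rintro y (h1 | h1)
    · exact (hX.sub h1).1
    · exact hWS h1.1
  · rintro w (h1 | h1) hwW
    · obtain ⟨y, hy, hyX, ha⟩ := hX.good w h1 ⟨hwW, hZ w h1⟩
      refine ⟨y, hy.1, ?_, ha⟩
      rintro (h2 | h2)
      · exact hyX h2
      · exact hy.2 h2
    · refine ⟨a, hp.ha, ?_, h1.2.symm⟩
      rintro (h2 | h2)
      · exact haX h2
      · exact h2.2.ne rfl
  · rintro u (h1 | h1) huW
    · have h2 := hX.two u h1 (fun h' => huW h'.1)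
      rw [compl_diff_union, compl_diff_union] at h2
      have h3 : (X ∪ Nb G W a) \ {u} = (X \ {u}) ∪ Nb G W a := by
        ext y
        constructor
        · rintro ⟨h4 | h4, h5⟩
          · exact Or.inl ⟨h4, h5⟩
          · exact Or.inr h4
        · rintro (h4 | h4)
          · exact ⟨Or.inl h4.1, h4.2⟩
          · refine ⟨Or.inr h4, ?_⟩
            intro h5
            rw [Set.mem_singleton_iff] at h5
            rw [h5] at h4
            exact huW h4.1
      rwa [h3]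
    · exact absurd h1.1 huW

omit [Finite V] in
theorem red_down (hXS : X ⊆ S \ Nb G W a) (hX : PCut G S W (X ∪ Nb G W a)) :
    PCut G (S \ Nb G W a) (W \ Nb G W a) X := by
  refine ⟨hXS, ?_, ?_⟩
  · intro w hw hwW
    obtain ⟨y, hy, hyX, ha⟩ := hX.good w (Or.inl hw) hwW.1
    exact ⟨y, ⟨hy, fun h => hyX (Or.inr h)⟩, fun h => hyX (Or.inl h), ha⟩
  · intro u hu huW
    have huZ := (hXS hu).2
    have huW' : u ∉ W := fun h => huW ⟨h, huZ⟩
    have h2 := hX.two u (Or.inl hu) huW'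
    rw [compl_diff_union, compl_diff_union]
    have h3 : (X ∪ Nb G W a) \ {u} = (X \ {u}) ∪ Nb G W a := by
      ext y
      constructor
      · rintro ⟨h4 | h4, h5⟩
        · exact Or.inl ⟨h4, h5⟩
        · exact Or.inr h4
      · rintro (h4 | h4)
        · exact ⟨Or.inl h4.1, h4.2⟩
        · refine ⟨Or.inr h4, ?_⟩
          intro h5
          rw [Set.mem_singleton_iff] at h5
          rw [h5] at h4
          exact huZ h4
    rwa [h3] at h2

theorem red_mem (hX : PCut G (S \ Nb G W a) (W \ Nb G W a) X) (hp : Pend G S W a t)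
    (haX : a ∈ X) : a ∈ W ∧ t ∉ X := by
  have haW : a ∈ W := by
    by_contra haW
    have h1 := hX.deg haX (fun h => haW h.1)
    have h2 := pend_deg_le (X := X) hp
    omega
  refine ⟨haW, ?_⟩
  obtain ⟨y, hy, hyX, ha⟩ := hX.good a haX ⟨haW, (pend_self hp).2⟩
  have : y = t := pend_nb hp (fun h => h hy) ha
  rwa [this] at hyX

theorem red_erase (hX : PCut G (S \ Nb G W a) (W \ Nb G W a) X) (hp : Pend G S W a t)
    (haX : a ∈ X) : PCut G (S \ Nb G W a) (W \ Nb G W a) (X \ {a}) := by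
  obtain ⟨haW, htX⟩ := red_mem hX hp haX
  refine ⟨fun y hy => hX.sub hy.1, hX.good.mono fun y hy => hy.1, ?_⟩
  intro u hu huW
  have h1 := hX.two u hu.1 huW
  rw [pend_cc hp htX haX (pend_self hp)]
  have h2 : (X \ {a}) \ {u} = (X \ {u}) \ {a} := by
    ext y
    simp only [Set.mem_sdiff, Set.mem_singleton_iff]
    tauto
  have hau : a ∈ X \ {u} := by
    refine ⟨haX, fun h => hu.2 ?_⟩
    rw [Set.mem_singleton_iff] at h ⊢
    exact h.symm
  rw [h2, pend_cc hp (fun h => htX h.1) hau (pend_self hp)]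
  exact h1

/-- **reduction**: the neighbours in `W` of a pendant vertex may be removed -/
theorem PAcc.red (h : PAcc G S W) (hp : Pend G S W a t) :
    PAcc G (S \ Nb G W a) (W \ Nb G W a) := by
  have hunm0 : ∀ X, PCut G (S \ Nb G W a) (W \ Nb G W a) X → a ∉ X →
      cc G ((S \ Nb G W a)ᶜ ∪ X) = (X \ (W \ Nb G W a)).ncard + 1 := by
    intro X hX haX
    have h1 := h.unm _ (red_up hX hp haX h.WS)
    rw [compl_diff_union, h1]
    congr 2
    ext y
    constructor
    · rintro ⟨h2 | h2, h3⟩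
      · exact ⟨h2, fun h4 => h3 h4.1⟩
      · exact absurd h2.1 h3
    · rintro ⟨h2, h3⟩
      exact ⟨Or.inl h2, fun h4 => h3 ⟨h4, (hX.sub h2).2⟩⟩
  refine ⟨fun x hx => ⟨h.WS hx.1, hx.2⟩, ?_, ?_, ?_⟩
  · have h1 := h.bound (X := Nb G W a) (fun y hy => h.WS hy.1)
      (fun w hw _ => ⟨a, hp.ha, fun h' => h'.2.ne rfl, hw.2.symm⟩)
    have h2 : Nb G W a \ W = ∅ := by
      ext y
      constructor
      · rintro ⟨h3, h4⟩
        exact absurd h3.1 h4
      · intro h3
        exact absurd h3 (Set.notMem_empty y)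
    rw [h2, Set.ncard_empty] at h1
    have h3 : a ∉ Sᶜ ∪ Nb G W a := notMem_union hp.ha (fun h' => h'.2.ne rfl)
    have h4 := one_le_cc (cl_mem_comps (G := G) h3)
    rw [compl_diff]
    omega
  · intro X hX
    by_cases haX : a ∈ X
    · obtain ⟨haW, htX⟩ := red_mem hX hp haX
      rw [← pend_cc hp htX haX (pend_self hp), hunm0 _ (red_erase hX hp haX) (fun h' => h'.2 rfl)]
      congr 2
      ext y
      constructor
      · rintro ⟨⟨h2, h3⟩, h4⟩
        exact ⟨h2, h4⟩
      · rintro ⟨h2, h3⟩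
        refine ⟨⟨h2, ?_⟩, h3⟩
        intro h4
        rw [Set.mem_singleton_iff] at h4
        rw [h4] at h3
        exact h3 ⟨haW, (pend_self hp).2⟩
    · exact hunm0 X hX haX
  · intro X hX hne
    by_cases haX : a ∈ X
    · exact ⟨a, haX, red_erase hX hp haX⟩
    · by_cases hXW : ∃ u ∈ X, u ∉ W
      · obtain ⟨u, hu, huW⟩ := hXW
        obtain ⟨s, hs, hsW, hs'⟩ := h.F3 (red_up hX hp haX h.WS) ⟨u, Or.inl hu, huW⟩
        have hsX : s ∈ X := hs.resolve_right fun h' => hsW h'.1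
        refine ⟨s, hsX, red_down (fun y hy => hX.sub hy.1) ?_⟩
        have h3 : (X ∪ Nb G W a) \ {s} = (X \ {s}) ∪ Nb G W a := by
          ext y
          constructor
          · rintro ⟨h4 | h4, h5⟩
            · exact Or.inl ⟨h4, h5⟩
            · exact Or.inr h4
          · rintro (h4 | h4)
            · exact ⟨Or.inl h4.1, h4.2⟩
            · refine ⟨Or.inr h4, ?_⟩
              intro h5
              rw [Set.mem_singleton_iff] at h5
              rw [h5] at h4
              exact hsW h4.1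
        rwa [h3] at hs'
      · push Not at hXW
        obtain ⟨x, hx⟩ := hne
        refine ⟨x, hx, fun y hy => hX.sub hy.1, hX.good.mono fun y hy => hy.1, ?_⟩
        intro u hu huW
        exact absurd ⟨hXW u hu.1, (hX.sub hu.1).2⟩ huW

end

/-- the statement on the number of leaves for smaller pairs -/
def IH (G : SimpleGraph V) (S : Set V) : Prop :=
  ∀ S' W' : Set V, S'.ncard < S.ncard → 2 ≤ S'.ncard → PAcc G S' W' → (Lf G S' W').ncard = 2

namespace Ctx

variable [Finite V]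

theorem leaves (h : Ctx G S W) (ih : IH G S) (hp : Pend G S W a t) :
    (Lf G (S \ Nb G W a) (W \ Nb G W a)).ncard = 2 := by
  refine ih _ _ ?_ ?_ (h.acc.red hp)
  · obtain ⟨w, hw, haw⟩ := h.w_pos hp.ha
    refine Set.ncard_lt_ncard ⟨fun x hx => hx.1, fun h' => ?_⟩ (Set.toFinite _)
    exact (h' (h.acc.WS hw)).2 ⟨hw, haw⟩
  · have h1 : ({a, t} : Set V) ⊆ S \ Nb G W a := by
      rintro x (rfl | h1)
      · exact pend_self hp
      · rw [Set.mem_singleton_iff] at h1
        subst h1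
        exact ⟨hp.ht, fun h' => hp.tW h'.1⟩
    have h2 := Set.ncard_le_ncard h1 (Set.toFinite _)
    rwa [Set.ncard_pair hp.adj.ne] at h2

theorem red_in (h : Ctx G S W) (ih : IH G S) (hp : Pend G S W a t) :
    (W \ Nb G W a).ncard ≤ 2 := by
  rw [← h.leaves ih hp]
  refine Set.ncard_le_ncard ?_ (Set.toFinite _)
  intro x hx
  exact ⟨⟨h.acc.WS hx.1, hx.2⟩, Or.inl hx⟩

theorem red_out (h : Ctx G S W) (ih : IH G S) (hp : Pend G S W a t) (haW : a ∉ W) :
    (W \ Nb G W a).ncard ≤ 1 := by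
  have h0 : a ∉ W \ Nb G W a := fun h' => haW h'.1
  have h1 : (insert a (W \ Nb G W a)).ncard ≤ (Lf G (S \ Nb G W a) (W \ Nb G W a)).ncard := by
    refine Set.ncard_le_ncard ?_ (Set.toFinite _)
    rintro x (rfl | hx)
    · refine ⟨pend_self hp, Or.inr ?_⟩
      have h2 : Nb G (S \ Nb G W x) x = {t} := by
        ext y
        constructor
        · rintro ⟨h3, h4⟩
          exact pend_nb hp (fun h' => h' h3) h4
        · intro h3
          rw [Set.mem_singleton_iff] at h3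
          subst h3
          exact ⟨⟨hp.ht, fun h' => hp.tW h'.1⟩, hp.adj⟩
      rw [h2, Set.ncard_singleton]
    · exact ⟨⟨h.acc.WS hx.1, hx.2⟩, Or.inl hx⟩
  rw [h.leaves ih hp, Set.ncard_insert_of_notMem h0] at h1
  omega

theorem red_eq (h : Ctx G S W) (ih : IH G S) (hp : Pend G S W a t)
    (hU : ∀ b s, b ∉ W → ¬ Pend G S W b s) : (W \ Nb G W a).ncard = 2 := by
  rw [← h.leaves ih hp]
  congr 1
  ext x
  constructor
  · intro hx
    exact ⟨⟨h.acc.WS hx.1, hx.2⟩, Or.inl hx⟩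
  · rintro ⟨hx, hx' | hx'⟩
    · exact hx'
    · refine ⟨?_, hx.2⟩
      by_contra hxW
      obtain ⟨y, hy, hyW, hay⟩ := h.u_pos hx.1
      refine hU x y hxW ⟨hx.1, hy, hyW, hay, ?_⟩
      intro y' hy' hyW' hay'
      have h1 : (Nb G (S \ Nb G W a) x).ncard ≤ 1 := hx'.le
      rw [Set.ncard_le_one_iff (Set.toFinite _)] at h1
      exact h1 ⟨⟨hy', fun h' => hyW' h'.1⟩, hay'⟩ ⟨⟨hy, fun h' => hyW h'.1⟩, hay⟩

end Ctx

end Pool.Agent.H280.TF
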